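import Mathlib

open Metric Set

namespace Pool.Agent.H30

section Banded

variable {Y : Type*} [NormedAddCommGroup Y] [NormedSpace ℝ Y]

/-- A triangular system in an infinite dimensional normed space. -/
lemma exists_triangular (h : ¬ FiniteDimensional ℝ Y) :
    ∃ (p : ℕ → Y) (f : ℕ → (Y →L[ℝ] ℝ)), (∀ n, ‖p n‖ = 1) ∧ (∀ n, ‖f n‖ ≤ 1) ∧
      (∀ n, f n (p n) = 1) ∧ ∀ m n, m < n → f m (p n) = 0 := by
  have key := exists_seq_of_forall_finset_exists (α := Y × (Y →L[ℝ] ℝ))
    (fun q => ‖q.1‖ = 1 ∧ ‖q.2‖ ≤ 1 ∧ q.2 q.1 = 1) (fun q r => q.2 r.1 = 0) ?_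
  · obtain ⟨s, hs, hr⟩ := key
    exact ⟨fun n => (s n).1, fun n => (s n).2, fun n => (hs n).1, fun n => (hs n).2.1,
      fun n => (hs n).2.2, fun m n hmn => hr m n hmn⟩
  · intro s hs
    let L : Y →ₗ[ℝ] (s → ℝ) := LinearMap.pi (fun q => (q.1.2 : Y →ₗ[ℝ] ℝ))
    have hL : ¬ Function.Injective L := fun hinj => h (FiniteDimensional.of_injective L hinj)
    have hker : LinearMap.ker L ≠ ⊥ := fun hb => hL (LinearMap.ker_eq_bot.mp hb)
    obtain ⟨y, hy, hy0⟩ := (Submodule.ne_bot_iff _).mp hker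
    have hyn : ‖y‖ ≠ 0 := norm_ne_zero_iff.mpr hy0
    obtain ⟨g, hg1, hg2⟩ := exists_dual_vector ℝ y hyn
    refine ⟨(‖y‖⁻¹ • y, g), ⟨?_, hg1.le, ?_⟩, ?_⟩
    · simp [norm_smul, hyn]
    · simp only [map_smul, smul_eq_mul, hg2]
      simp [hyn]
    · intro q hq
      have : L y ⟨q, hq⟩ = 0 := by
        rw [LinearMap.mem_ker.mp hy]; rfl
      have h2 : q.2 y = 0 := this
      simp [h2]

/-- A banded biorthogonal system in an infinite dimensional normed space. -/
lemma exists_band (h : ¬ FiniteDimensional ℝ Y) (B : ℕ) :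
    ∃ (p : ℕ → Y) (f : ℕ → (Y →L[ℝ] ℝ)) (C : ℝ), 1 ≤ C ∧ (∀ n, ‖p n‖ = 1) ∧
      (∀ n, ‖f n‖ ≤ C) ∧ (∀ n, f n (p n) = 1) ∧ (∀ m n, m < n → f m (p n) = 0) ∧
      (∀ m n, m < n → n ≤ m + B → f n (p m) = 0) := by
  induction B with
  | zero =>
    obtain ⟨p, f, h1, h2, h3, h4⟩ := exists_triangular h
    exact ⟨p, f, 1, le_rfl, h1, h2, h3, h4, fun m n hmn hn => by omega⟩
  | succ B ih =>
    obtain ⟨p, f, C, hC, h1, h2, h3, h4, h5⟩ := ih
    refine ⟨p, fun n => if B + 1 ≤ n then f n - f n (p (n - (B + 1))) • f (n - (B + 1)) else f n,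
      C + C * C, by nlinarith, h1, ?_, ?_, ?_, ?_⟩
    · intro n
      dsimp only
      split_ifs with hn
      · have e1 : ‖f n (p (n - (B + 1)))‖ ≤ C := by
          calc ‖f n (p (n - (B + 1)))‖ ≤ ‖f n‖ * ‖p (n - (B + 1))‖ := (f n).le_opNorm _
            _ ≤ C := by rw [h1, mul_one]; exact h2 n
        calc ‖f n - f n (p (n - (B + 1))) • f (n - (B + 1))‖
            ≤ ‖f n‖ + ‖f n (p (n - (B + 1))) • f (n - (B + 1))‖ := norm_sub_le _ _
          _ ≤ C + C * C := by
              rw [norm_smul]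
              exact add_le_add (h2 n) (mul_le_mul e1 (h2 _) (norm_nonneg _) (by linarith))
      · have := h2 n
        nlinarith
    · intro n
      dsimp only
      split_ifs with hn
      · have : f (n - (B + 1)) (p n) = 0 := h4 _ _ (by omega)
        simp [this, h3]
      · exact h3 n
    · intro m n hmn
      dsimp only
      split_ifs with hn
      · have e1 : f (m - (B + 1)) (p n) = 0 := h4 _ _ (by omega)
        have e2 := h4 m n hmn
        simp [e1, e2]
      · exact h4 m n hmn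
    · intro m n hmn hn
      dsimp only
      split_ifs with hn'
      · rcases Nat.lt_or_ge (m + B) n with hlt | hge
        · have hm : m = n - (B + 1) := by omega
          subst hm
          simp [h3]
        · have e1 : f (n - (B + 1)) (p m) = 0 := h4 _ _ (by omega)
          have e2 := h5 m n hmn hge
          simp [e1, e2]
      · exact h5 m n hmn (by omega)

end Banded

end Pool.Agent.H30
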