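import Mathlib
import Pool.Agent.H30.Sys

open Metric Set

namespace Pool.Agent.H30

section Path

variable {Y : Type*} [NormedAddCommGroup Y] [NormedSpace ℝ Y]

/-- vertices of the polygonal path: 0, p 0, p 1, ... -/
def vert (p : ℕ → Y) : ℕ → Y
  | 0 => 0
  | (k+1) => p k

/-- the infinite polygonal path, constant 0 on negative times -/
noncomputable def path (p : ℕ → Y) (τ : ℝ) : Y :=
  (1 - (max τ 0 - (⌊max τ 0⌋₊ : ℝ))) • vert p ⌊max τ 0⌋₊ +
    (max τ 0 - (⌊max τ 0⌋₊ : ℝ)) • vert p (⌊max τ 0⌋₊ + 1)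

variable (p : ℕ → Y)

lemma path_of_nonpos {τ : ℝ} (h : τ ≤ 0) : path p τ = 0 := by
  simp [path, max_eq_right h, vert]

lemma path_eq {m : ℕ} {τ : ℝ} (h1 : (m : ℝ) ≤ τ) (h2 : τ ≤ m + 1) :
    path p τ = (1 - (τ - m)) • vert p m + (τ - m) • vert p (m + 1) := by
  have h0 : 0 ≤ τ := le_trans (Nat.cast_nonneg m) h1
  unfold path
  rw [max_eq_left h0]
  rcases lt_or_eq_of_le h2 with h | h
  · have : ⌊τ⌋₊ = m := by
      rw [Nat.floor_eq_iff h0]; exact ⟨h1, h⟩
    rw [this]
  · have : ⌊τ⌋₊ = m + 1 := by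
      rw [Nat.floor_eq_iff h0]
      push_cast
      exact ⟨h.ge, by linarith⟩
    rw [this, h]
    push_cast
    simp

variable {p}

lemma norm_vert_le (hp : ∀ n, ‖p n‖ = 1) (k : ℕ) : ‖vert p k‖ ≤ 1 := by
  cases k with
  | zero => simp [vert]
  | succ k => simp [vert, hp]

lemma norm_path_le (hp : ∀ n, ‖p n‖ = 1) (τ : ℝ) : ‖path p τ‖ ≤ 1 := by
  rcases le_total τ 0 with h | h
  · rw [path_of_nonpos p h]; simp
  · have h1 := Nat.floor_le h
    have h2 := (Nat.lt_floor_add_one τ).le
    rw [path_eq p h1 h2]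
    calc _ ≤ ‖(1 - (τ - (⌊τ⌋₊:ℝ))) • vert p ⌊τ⌋₊‖ + ‖(τ - (⌊τ⌋₊:ℝ)) • vert p (⌊τ⌋₊ + 1)‖ :=
          norm_add_le _ _
      _ ≤ (1 - (τ - (⌊τ⌋₊:ℝ))) * 1 + (τ - (⌊τ⌋₊:ℝ)) * 1 := by
          rw [norm_smul, norm_smul, Real.norm_of_nonneg (by linarith : (0:ℝ) ≤ 1 - (τ - (⌊τ⌋₊:ℝ))),
            Real.norm_of_nonneg (by linarith : (0:ℝ) ≤ (τ - (⌊τ⌋₊:ℝ)))]
          exact add_le_add (mul_le_mul_of_nonneg_left (norm_vert_le hp _) (by linarith))
            (mul_le_mul_of_nonneg_left (norm_vert_le hp _) (by linarith))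
      _ = 1 := by ring

/-- the path is affine on each cell -/
lemma path_sub_same {m : ℕ} {a b : ℝ} (hp : ∀ n, ‖p n‖ = 1) (ha : (m : ℝ) ≤ a) (ha' : a ≤ m + 1)
    (hb : (m : ℝ) ≤ b) (hb' : b ≤ m + 1) : ‖path p a - path p b‖ ≤ 2 * |a - b| := by
  rw [path_eq p ha ha', path_eq p hb hb']
  have : (1 - (a - (m:ℝ))) • vert p m + (a - m) • vert p (m + 1) -
      ((1 - (b - (m:ℝ))) • vert p m + (b - m) • vert p (m + 1)) =
      (a - b) • (vert p (m+1) - vert p m) := by
    module
  rw [this, norm_smul, Real.norm_eq_abs, mul_comm]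
  refine mul_le_mul_of_nonneg_right ?_ (abs_nonneg _)
  calc ‖vert p (m+1) - vert p m‖ ≤ ‖vert p (m+1)‖ + ‖vert p m‖ := norm_sub_le _ _
    _ ≤ 1 + 1 := add_le_add (norm_vert_le hp _) (norm_vert_le hp _)
    _ = 2 := by norm_num

lemma path_sub_le_aux (hp : ∀ n, ‖p n‖ = 1) {a b : ℝ} (hab : a ≤ b) (h1 : b - a < 1) :
    ‖path p a - path p b‖ ≤ 2 * |a - b| := by
  rcases le_total b 0 with hb | hb
  · rw [path_of_nonpos p hb, path_of_nonpos p (hab.trans hb)]
    simp
  rcases le_total a 0 with ha | ha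
  · -- a ≤ 0 ≤ b
    rw [path_of_nonpos p ha]
    have h0 : path p 0 = 0 := path_of_nonpos p le_rfl
    rw [← h0]
    have := path_sub_same (p := p) (m := 0) (a := 0) (b := b) hp (by simp) (by simp)
      (by simpa using hb) (by push_cast; linarith)
    refine this.trans ?_
    rw [abs_of_nonpos (by linarith : (0:ℝ) - b ≤ 0), abs_of_nonpos (by linarith : a - b ≤ 0)]
    linarith
  · have f1 := Nat.floor_le ha
    have f2 := Nat.lt_floor_add_one a
    rcases le_total b (⌊a⌋₊ + 1 : ℝ) with h | h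
    · exact path_sub_same hp f1 f2.le (f1.trans hab) h
    · have e1 := path_sub_same (p := p) (m := ⌊a⌋₊) (a := a) (b := (⌊a⌋₊ : ℝ) + 1) hp f1 f2.le
        (by linarith) le_rfl
      have e2 := path_sub_same (p := p) (m := ⌊a⌋₊ + 1) (a := (⌊a⌋₊ : ℝ) + 1) (b := b) hp
        (by push_cast; linarith) (by push_cast; linarith) (by push_cast; linarith)
        (by push_cast; linarith)
      calc ‖path p a - path p b‖ = ‖(path p a - path p ((⌊a⌋₊ : ℝ) + 1)) +
            (path p ((⌊a⌋₊ : ℝ) + 1) - path p b)‖ := by congr 1; abel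
        _ ≤ _ := norm_add_le _ _
        _ ≤ 2 * |a - ((⌊a⌋₊ : ℝ) + 1)| + 2 * |((⌊a⌋₊ : ℝ) + 1) - b| := add_le_add e1 e2
        _ = 2 * |a - b| := by
          rw [abs_of_nonpos (by linarith : a - ((⌊a⌋₊ : ℝ) + 1) ≤ 0),
            abs_of_nonpos (by linarith : ((⌊a⌋₊ : ℝ) + 1) - b ≤ 0),
            abs_of_nonpos (by linarith : a - b ≤ 0)]
          ring

lemma path_sub_le (hp : ∀ n, ‖p n‖ = 1) (a b : ℝ) :
    ‖path p a - path p b‖ ≤ 2 * |a - b| := by
  wlog hab : a ≤ b generalizing a b
  · have := this b a (le_of_not_ge hab)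
    rw [norm_sub_rev, abs_sub_comm]; exact this
  rcases lt_or_ge (b - a) 1 with h | h
  · exact path_sub_le_aux hp hab h
  · calc ‖path p a - path p b‖ ≤ ‖path p a‖ + ‖path p b‖ := norm_sub_le _ _
      _ ≤ 1 + 1 := add_le_add (norm_path_le hp a) (norm_path_le hp b)
      _ ≤ 2 * |a - b| := by
        rw [abs_of_nonpos (by linarith : a - b ≤ 0)]; linarith

/-- package of the banded system -/
structure Sys (p : ℕ → Y) (f : ℕ → (Y →L[ℝ] ℝ)) (C : ℝ) : Prop where
  one_le : 1 ≤ C
  norm_p : ∀ n, ‖p n‖ = 1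
  norm_f : ∀ n, ‖f n‖ ≤ C
  diag : ∀ n, f n (p n) = 1
  later : ∀ m n, m < n → f m (p n) = 0
  band : ∀ m n, m < n → n ≤ m + 8 → f n (p m) = 0

variable {f : ℕ → (Y →L[ℝ] ℝ)} {C : ℝ}

lemma Sys.eval_vert (S : Sys p f C) {k j : ℕ} (h : k + 1 ≤ j + 8) :
    f k (vert p j) = if j = k + 1 then 1 else 0 := by
  cases j with
  | zero => simp [vert]
  | succ j =>
    simp only [vert]
    rcases lt_trichotomy j k with h1 | h1 | h1
    · rw [S.band j k h1 (by omega), if_neg (by omega)]
    · subst h1; rw [S.diag, if_pos rfl]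
    · rw [S.later k j h1, if_neg (by omega)]

lemma Sys.abs_le (S : Sys p f C) (k : ℕ) (x : Y) : |f k x| ≤ C * ‖x‖ := by
  calc |f k x| = ‖f k x‖ := (Real.norm_eq_abs _).symm
    _ ≤ ‖f k‖ * ‖x‖ := (f k).le_opNorm x
    _ ≤ C * ‖x‖ := mul_le_mul_of_nonneg_right (S.norm_f k) (norm_nonneg _)

/-- value of the functionals on a cell -/
lemma Sys.eval_path (S : Sys p f C) {k m : ℕ} (h : k + 1 ≤ m + 8) {τ : ℝ}
    (h1 : (m : ℝ) ≤ τ) (h2 : τ ≤ m + 1) :
    f k (path p τ) = (1 - (τ - m)) * (if m = k + 1 then 1 else 0) +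
      (τ - m) * (if m = k then 1 else 0) := by
  rw [path_eq p h1 h2, map_add, map_smul, map_smul, S.eval_vert h, S.eval_vert (by omega)]
  simp only [smul_eq_mul, add_left_inj]

/-- main transversality estimate -/
lemma Sys.lower (S : Sys p f C) {a b μ : ℝ} (hb : 1 ≤ b) (hab : a ≤ b - 1) (hab' : b - 5 ≤ a)
    (hμ : 0 ≤ μ) (hμ1 : μ ≤ 1) : 1 / (3 * C) ≤ ‖path p b - μ • path p a‖ := by
  have hC : 0 < C := lt_of_lt_of_le one_pos S.one_le
  have hb0 : 0 ≤ b := by linarith
  set j := ⌊b⌋₊ with hj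
  have f1 : (j : ℝ) ≤ b := Nat.floor_le hb0
  have f2 : b < j + 1 := Nat.lt_floor_add_one b
  have hj1 : 1 ≤ j := by rw [hj]; exact Nat.le_floor (by simpa using hb)
  obtain ⟨i, hi⟩ : ∃ i, j = i + 1 := ⟨j - 1, by omega⟩
  have hji : (j : ℝ) = i + 1 := by rw [hi]; push_cast; ring
  -- values at b
  have b1 : f j (path p b) = b - j := by
    rw [S.eval_path (m := j) (by omega) f1 f2.le]
    simp
  have b2 : f i (path p b) = 1 - (b - j) := by
    rw [S.eval_path (m := j) (by omega) f1 f2.le]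
    simp [hi]
  -- values at a
  have a12 : f j (path p a) = 0 ∧ 0 ≤ f i (path p a) ∧ f i (path p a) ≤ b - j := by
    rcases le_total a 0 with ha | ha
    · rw [path_of_nonpos p ha]
      simp only [map_zero, le_refl, true_and]
      linarith
    · set l := ⌊a⌋₊ with hl
      have g1 : (l : ℝ) ≤ a := Nat.floor_le ha
      have g2 : a < l + 1 := Nat.lt_floor_add_one a
      have hlj : l < j := by
        have : (l : ℝ) < j := by linarith
        exact_mod_cast this
      have hlb : j < l + 6 := by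
        have : (j : ℝ) < l + 6 := by linarith
        exact_mod_cast this
      rw [S.eval_path (m := l) (k := j) (by omega) g1 g2.le,
        S.eval_path (m := l) (k := i) (by omega) g1 g2.le]
      rw [if_neg (by omega), if_neg (by omega)]
      rw [if_neg (by omega)]
      by_cases hli : l = i
      · rw [if_pos hli]
        subst hli
        refine ⟨by ring, by linarith, by linarith⟩
      · rw [if_neg hli]
        refine ⟨by ring, by linarith, by linarith⟩
  obtain ⟨a1, a2, a3⟩ := a12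
  have e1 := S.abs_le j (path p b - μ • path p a)
  have e2 := S.abs_le i (path p b - μ • path p a)
  rw [map_sub, map_smul, smul_eq_mul, b1, a1] at e1
  rw [map_sub, map_smul, smul_eq_mul, b2] at e2
  have e1' : b - j ≤ C * ‖path p b - μ • path p a‖ := by
    refine le_trans ?_ e1
    rw [mul_zero, sub_zero]; exact le_abs_self _
  have e2' : 1 - (b - j) - μ * f i (path p a) ≤ C * ‖path p b - μ • path p a‖ :=
    (le_abs_self _).trans e2
  have e3 : μ * f i (path p a) ≤ b - j := by nlinarith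
  have e4 : 1 / 3 ≤ C * ‖path p b - μ • path p a‖ := by
    rcases le_total (1/3) (b - j) with h | h <;> linarith
  rw [div_le_iff₀ (by positivity)]
  nlinarith

/-- far parts of the path are separated -/
lemma Sys.sep (S : Sys p f C) {a b : ℝ} (ha : 0 ≤ a) (hab : a + 1 ≤ b) :
    1 / (12 * C ^ 2) ≤ ‖path p b - path p a‖ := by
  have hC1 := S.one_le
  have hC : 0 < C := lt_of_lt_of_le one_pos S.one_le
  have hC2 : C ≤ C ^ 2 := by nlinarith
  rcases le_total b (a + 5) with h | h
  · have := S.lower (a := a) (b := b) (μ := 1) (by linarith) (by linarith) (by linarith)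
      zero_le_one le_rfl
    rw [one_smul] at this
    refine le_trans ?_ this
    apply one_div_le_one_div_of_le (by positivity)
    nlinarith
  · -- far case
    have key : ∀ k : ℕ, |f k (path p b) - f k (path p a)| ≤ C * ‖path p b - path p a‖ := by
      intro k
      rw [← map_sub]
      exact S.abs_le k _
    set i := ⌊a⌋₊ with hi
    have f1 : (i : ℝ) ≤ a := Nat.floor_le ha
    have f2 : a < i + 1 := Nat.lt_floor_add_one a
    set j := ⌊b⌋₊ with hj
    have g1 : (j : ℝ) ≤ b := Nat.floor_le (by linarith)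
    have g2 : b < j + 1 := Nat.lt_floor_add_one b
    have hij : i + 3 < j := by
      have : ((i + 3 : ℕ) : ℝ) < j := by push_cast; linarith
      exact_mod_cast this
    -- f i at a, b
    have hfi : |a - i| ≤ C * ‖path p b - path p a‖ := by
      have := key i
      rw [S.eval_path (m := j) (k := i) (by omega) g1 g2.le,
        S.eval_path (m := i) (k := i) (by omega) f1 f2.le] at this
      rw [if_neg (by omega), if_neg (by omega), if_neg (by omega), if_pos rfl] at this
      simpa [abs_sub_comm] using this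
    rcases Nat.eq_zero_or_pos i with h0 | hpos
    · -- i = 0
      have ha1 : a - i = a := by rw [h0]; simp
      rw [ha1, abs_of_nonneg ha] at hfi
      rcases le_total a (1 / (4 * C)) with hsmall | hbig
      · -- path p a is small
        have hn : ‖path p a‖ ≤ a := by
          rw [path_eq p f1 f2.le, h0]
          simp only [vert, CharP.cast_eq_zero, sub_zero, smul_zero, zero_add]
          rw [norm_smul, S.norm_p, mul_one, Real.norm_of_nonneg ha]
        have hl := S.lower (a := b - 1) (b := b) (μ := 0) (by linarith) le_rfl (by linarith)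
          le_rfl zero_le_one
        rw [zero_smul, sub_zero] at hl
        have h3 : ‖path p b‖ ≤ ‖path p b - path p a‖ + ‖path p a‖ := by
          calc ‖path p b‖ = ‖(path p b - path p a) + path p a‖ := by congr 1; abel
            _ ≤ _ := norm_add_le _ _
        have h4 : 1 / (3 * C) - 1 / (4 * C) ≤ ‖path p b - path p a‖ := by linarith
        have h5 : 1 / (3 * C) - 1 / (4 * C) = 1 / (12 * C) := by
          field_simp; norm_num
        rw [h5] at h4
        refine le_trans ?_ h4
        apply one_div_le_one_div_of_le (by positivity)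
        nlinarith
      · have h5 : 1 / (4 * C) ≤ C * ‖path p b - path p a‖ := hbig.trans hfi
        rw [div_le_iff₀ (by positivity)] at h5 ⊢
        nlinarith
    · -- i ≥ 1
      obtain ⟨l, hl⟩ : ∃ l, i = l + 1 := ⟨i - 1, by omega⟩
      have hfl : |1 - (a - i)| ≤ C * ‖path p b - path p a‖ := by
        have := key l
        rw [S.eval_path (m := j) (k := l) (by omega) g1 g2.le,
          S.eval_path (m := i) (k := l) (by omega) f1 f2.le] at this
        rw [if_neg (by omega), if_neg (by omega), if_pos (by omega), if_neg (by omega)] at this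
        simpa [abs_sub_comm] using this
      have h1 := le_abs_self (a - i)
      have h2 := le_abs_self (1 - (a - i))
      have h6 : 1 / 2 ≤ C * ‖path p b - path p a‖ := by linarith
      rw [div_le_iff₀ (by positivity)]
      nlinarith [norm_nonneg (path p b - path p a)]

end Path

end Pool.Agent.H30
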