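import Mathlib
import Pool.Agent.H30.Path

open Metric Set

namespace Pool.Agent.H30

/-- clamp to `[lo, hi]` -/
noncomputable def clampR (lo hi v : ℝ) : ℝ := max lo (min hi v)

lemma clampR_lip (lo hi v w : ℝ) : |clampR lo hi v - clampR lo hi w| ≤ |v - w| := by
  unfold clampR
  have h1 : |max lo (min hi v) - max lo (min hi w)| ≤ |min hi v - min hi w| := by
    have := abs_max_sub_max_le_max lo (min hi v) lo (min hi w)
    simpa using this
  have h2 : |min hi v - min hi w| ≤ |v - w| := by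
    have := abs_min_sub_min_le_max hi v hi w
    simpa using this
  exact h1.trans h2

lemma clampR_mem {lo hi : ℝ} (h : lo ≤ hi) (v : ℝ) : lo ≤ clampR lo hi v ∧ clampR lo hi v ≤ hi := by
  unfold clampR
  exact ⟨le_max_left _ _, max_le h (min_le_left _ _)⟩

lemma clampR_of_le {lo hi v : ℝ} (h : lo ≤ hi) (hv : v ≤ lo) : clampR lo hi v = lo := by
  unfold clampR
  rw [min_eq_right (hv.trans h), max_eq_left hv]

lemma clampR_of_ge {lo hi v : ℝ} (h : lo ≤ hi) (hv : hi ≤ v) : clampR lo hi v = hi := by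
  unfold clampR
  rw [min_eq_left hv, max_eq_right h]

section F

variable {Y : Type*} [NormedAddCommGroup Y] [NormedSpace ℝ Y]
variable (p : ℕ → Y) (f : ℕ → (Y →L[ℝ] ℝ)) (δ : ℝ)

open Classical in
/-- position along the path -/
noncomputable def pos (x : Y) : ℝ :=
  if h : ∃ τ : ℝ, 0 ≤ τ ∧ ‖x - path p τ‖ < 4 * δ then
    (⌊h.choose⌋₊ : ℝ) + clampR 0 1 (2 * f ⌊h.choose⌋₊ x - 1/2) else 0

/-- distance to the path -/
noncomputable def dL (x : Y) : ℝ := infDist x (range (path p))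

noncomputable def alpha (d : ℝ) : ℝ := clampR (-2) 2 (4 * (d / δ - 1) - 2)
noncomputable def sfun (d : ℝ) : ℝ := clampR 0 1 (d / δ - 2)

/-- the basic Lipschitz map without approximate fixed points -/
noncomputable def FF (x : Y) : Y :=
  (1 - sfun δ (dL p x)) • path p (pos p f δ x - alpha δ (dL p x))

variable {p f δ} {C : ℝ}

lemma dL_lip (x y : Y) : |dL p x - dL p y| ≤ ‖x - y‖ := by
  have h := (lipschitz_infDist_pt (range (path p))).dist_le_mul x y
  simpa [dL, Real.dist_eq, dist_eq_norm] using h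

lemma dL_nonneg (x : Y) : 0 ≤ dL p x := infDist_nonneg

lemma dL_le (x : Y) (τ : ℝ) : dL p x ≤ ‖x - path p τ‖ := by
  rw [← dist_eq_norm]; exact infDist_le_dist_of_mem ⟨τ, rfl⟩

lemma dL_le_norm (x : Y) : dL p x ≤ ‖x‖ := by
  have := dL_le (p := p) x 0
  rwa [path_of_nonpos p le_rfl, sub_zero] at this

lemma exists_of_dL_lt {x : Y} {r : ℝ} (h : dL p x < r) : ∃ τ : ℝ, 0 ≤ τ ∧ ‖x - path p τ‖ < r := by
  have hne : (range (path p)).Nonempty := ⟨_, ⟨0, rfl⟩⟩
  obtain ⟨y, ⟨τ, rfl⟩, hy⟩ := (infDist_lt_iff hne).mp h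
  rw [dist_eq_norm] at hy
  rcases le_total 0 τ with h0 | h0
  · exact ⟨τ, h0, hy⟩
  · refine ⟨0, le_rfl, ?_⟩
    rw [path_of_nonpos p le_rfl]
    rwa [path_of_nonpos p h0] at hy

/-- well-definedness of the position -/
lemma Sys.pos_eq (S : Sys p f C) (hδ : 0 < δ) (hδC : δ ≤ 1 / (100 * C ^ 2)) {x : Y} {τ : ℝ}
    (h0 : 0 ≤ τ) (hx : ‖x - path p τ‖ < 4 * δ) :
    pos p f δ x = (⌊τ⌋₊ : ℝ) + clampR 0 1 (2 * f ⌊τ⌋₊ x - 1/2) := by
  have hC1 := S.one_le
  have hC : 0 < C := lt_of_lt_of_le one_pos hC1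
  have hδC' : δ * (100 * C ^ 2) ≤ 1 := by rwa [le_div_iff₀ (by positivity)] at hδC
  have hδC1 : 100 * (C * δ) ≤ 1 := by nlinarith [mul_pos hC hδ]
  -- symmetric auxiliary statement
  have aux : ∀ {a b : ℝ}, 0 ≤ a → 0 ≤ b → ‖x - path p a‖ < 4 * δ → ‖x - path p b‖ < 4 * δ →
      ⌊a⌋₊ < ⌊b⌋₊ → (⌊a⌋₊ : ℝ) + clampR 0 1 (2 * f ⌊a⌋₊ x - 1/2) =
        (⌊b⌋₊ : ℝ) + clampR 0 1 (2 * f ⌊b⌋₊ x - 1/2) := by
    intro a b ha hb hxa hxb hab
    set m := ⌊a⌋₊ with hm
    set n := ⌊b⌋₊ with hn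
    have a1 : (m : ℝ) ≤ a := Nat.floor_le ha
    have a2 : a < m + 1 := Nat.lt_floor_add_one a
    have b1 : (n : ℝ) ≤ b := Nat.floor_le hb
    have b2 : b < n + 1 := Nat.lt_floor_add_one b
    have hd : ‖path p b - path p a‖ < 8 * δ := by
      calc ‖path p b - path p a‖ = ‖(x - path p a) - (x - path p b)‖ := by congr 1; abel
        _ ≤ ‖x - path p a‖ + ‖x - path p b‖ := norm_sub_le _ _
        _ < 8 * δ := by linarith
    have hmn : (m : ℝ) + 1 ≤ n := by exact_mod_cast hab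
    have hba : b < a + 1 := by
      by_contra hcon
      push Not at hcon
      have := S.sep ha hcon
      have h8 : 8 * δ ≤ 1 / (12 * C ^ 2) := by
        rw [le_div_iff₀ (by positivity)]
        nlinarith
      linarith
    have hnm : n = m + 1 := by
      have : (n : ℝ) < m + 2 := by linarith
      have : n < m + 2 := by exact_mod_cast this
      omega
    have hnR : (n : ℝ) = m + 1 := by rw [hnm]; push_cast; ring
    -- values of functionals
    have v1 : f m (path p a) = a - m := by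
      rw [S.eval_path (m := m) (by omega) a1 a2.le]; simp
    have v2 : f m (path p b) = 1 - (b - n) := by
      rw [S.eval_path (m := n) (by omega) b1 b2.le]
      rw [if_pos hnm, if_neg (by omega)]; ring
    have v3 : f n (path p a) = 0 := by
      rw [S.eval_path (m := m) (by omega) a1 a2.le]
      rw [if_neg (by omega), if_neg (by omega)]; ring
    have v4 : f n (path p b) = b - n := by
      rw [S.eval_path (m := n) (by omega) b1 b2.le]; simp
    have w1 : |f m (path p b - path p a)| ≤ 8 * (C * δ) := by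
      refine (S.abs_le m _).trans ?_
      nlinarith
    have w2 : |f n (path p b - path p a)| ≤ 8 * (C * δ) := by
      refine (S.abs_le n _).trans ?_
      nlinarith
    rw [map_sub, v1, v2, _root_.abs_le] at w1
    rw [map_sub, v3, v4, sub_zero, _root_.abs_le] at w2
    have x1 : |f m (x - path p a)| ≤ 4 * (C * δ) := by
      refine (S.abs_le m _).trans ?_
      nlinarith
    have x2 : |f n (x - path p b)| ≤ 4 * (C * δ) := by
      refine (S.abs_le n _).trans ?_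
      nlinarith
    rw [map_sub, v1, _root_.abs_le] at x1
    rw [map_sub, v4, _root_.abs_le] at x2
    rw [clampR_of_ge zero_le_one (by linarith), clampR_of_le zero_le_one (by linarith), hnR]
    ring
  have hex : ∃ τ : ℝ, 0 ≤ τ ∧ ‖x - path p τ‖ < 4 * δ := ⟨τ, h0, hx⟩
  unfold pos
  rw [dif_pos hex]
  obtain ⟨c0, c1⟩ := hex.choose_spec
  rcases lt_trichotomy ⌊hex.choose⌋₊ ⌊τ⌋₊ with h | h | h
  · exact aux c0 h0 c1 hx h
  · rw [h]
  · exact (aux h0 c0 hx c1 h).symm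

lemma Sys.pos_mem (S : Sys p f C) (hδ : 0 < δ) (hδC : δ ≤ 1 / (100 * C ^ 2)) {x : Y} {τ : ℝ}
    (h0 : 0 ≤ τ) (hx : ‖x - path p τ‖ < 4 * δ) :
    τ - 1 ≤ pos p f δ x ∧ pos p f δ x ≤ τ + 1 := by
  rw [S.pos_eq hδ hδC h0 hx]
  have h1 := clampR_mem zero_le_one (2 * f ⌊τ⌋₊ x - 1/2)
  have h2 := Nat.floor_le h0
  have h3 := Nat.lt_floor_add_one τ
  constructor <;> linarith [h1.1, h1.2]

lemma norm_FF_le (hp : ∀ n, ‖p n‖ = 1) (x : Y) : ‖FF p f δ x‖ ≤ 1 := by
  unfold FF sfun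
  have h1 := clampR_mem zero_le_one (dL p x / δ - 2)
  rw [norm_smul, Real.norm_of_nonneg (by linarith [h1.2])]
  have := norm_path_le hp (pos p f δ x - alpha δ (dL p x))
  nlinarith [h1.1, norm_nonneg (path p (pos p f δ x - alpha δ (dL p x)))]

lemma FF_eq_zero (hδ : 0 < δ) {x : Y} (h : 3 * δ ≤ dL p x) : FF p f δ x = 0 := by
  unfold FF sfun
  rw [clampR_of_ge zero_le_one, sub_self, zero_smul]
  rw [le_sub_iff_add_le, le_div_iff₀ hδ]
  linarith

/-- no approximate fixed points -/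
lemma Sys.FF_far (S : Sys p f C) (hδ : 0 < δ) (hδC : δ ≤ 1 / (100 * C ^ 2)) (x : Y) :
    δ ≤ ‖x - FF p f δ x‖ := by
  have hC1 := S.one_le
  have hC : 0 < C := lt_of_lt_of_le one_pos hC1
  have hδC' : δ * (100 * C ^ 2) ≤ 1 := by rwa [le_div_iff₀ (by positivity)] at hδC
  have hδC1 : 100 * (C * δ) ≤ 1 := by nlinarith [mul_pos hC hδ]
  have h5 : 5 * δ ≤ 1 / (3 * C) := by
    rw [le_div_iff₀ (by positivity)]; nlinarith
  rcases le_or_gt (3 * δ) (dL p x) with h3 | h3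
  · rw [FF_eq_zero hδ h3, sub_zero]
    have := dL_le_norm (p := p) x
    linarith
  obtain ⟨τ, hτ0, hτ⟩ := exists_of_dL_lt (show dL p x < 4 * δ by linarith)
  obtain ⟨m1, m2⟩ := S.pos_mem hδ hδC hτ0 hτ
  rcases le_or_gt (2 * δ) (dL p x) with h2 | h2
  · -- outer shell
    have hα : alpha δ (dL p x) = 2 := by
      unfold alpha
      rw [clampR_of_ge (by norm_num)]
      have : 2 ≤ dL p x / δ := by rw [le_div_iff₀ hδ]; exact h2
      linarith
    unfold FF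
    rw [hα]
    rcases le_or_gt (pos p f δ x - 2) 0 with hp0 | hp0
    · rw [path_of_nonpos p hp0, smul_zero, sub_zero]
      have := dL_le_norm (p := p) x
      linarith
    · have hs := clampR_mem zero_le_one (dL p x / δ - 2)
      have := S.lower (a := pos p f δ x - 2) (b := τ) (μ := 1 - sfun δ (dL p x))
        (by linarith) (by linarith) (by linarith) (by unfold sfun; linarith [hs.2])
        (by unfold sfun; linarith [hs.1])
      have h6 : ‖path p τ - (1 - sfun δ (dL p x)) • path p (pos p f δ x - 2)‖ ≤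
          ‖x - (1 - sfun δ (dL p x)) • path p (pos p f δ x - 2)‖ + ‖x - path p τ‖ := by
        calc _ = ‖(x - (1 - sfun δ (dL p x)) • path p (pos p f δ x - 2)) - (x - path p τ)‖ := by
              congr 1; abel
          _ ≤ _ := norm_sub_le _ _
      linarith
  · have hs : sfun δ (dL p x) = 0 := by
      unfold sfun
      rw [clampR_of_le zero_le_one]
      have : dL p x / δ ≤ 2 := by rw [div_le_iff₀ hδ]; exact h2.le
      linarith
    unfold FF
    rw [hs, sub_zero, one_smul]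
    rcases le_or_gt δ (dL p x) with h1 | h1
    · exact h1.trans (dL_le x _)
    · have hα : alpha δ (dL p x) = -2 := by
        unfold alpha
        rw [clampR_of_le (by norm_num)]
        have : dL p x / δ ≤ 1 := by rw [div_le_iff₀ hδ]; linarith
        linarith
      rw [hα]
      have := S.lower (a := τ) (b := pos p f δ x - (-2)) (μ := 1)
        (by linarith) (by linarith) (by linarith) zero_le_one le_rfl
      rw [one_smul] at this
      have h6 : ‖path p (pos p f δ x - -2) - path p τ‖ ≤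
          ‖x - path p (pos p f δ x - -2)‖ + ‖x - path p τ‖ := by
        calc _ = ‖(x - path p τ) - (x - path p (pos p f δ x - -2))‖ := by
              congr 1; abel
          _ ≤ ‖x - path p τ‖ + ‖x - path p (pos p f δ x - -2)‖ := norm_sub_le _ _
          _ = _ := add_comm _ _
      linarith

lemma Sys.FF_lip_aux (S : Sys p f C) (hδ : 0 < δ) (hδC : δ ≤ 1 / (100 * C ^ 2)) {x y : Y}
    (hx : dL p x < 3 * δ) (hxy : ‖x - y‖ < δ) :
    ‖FF p f δ x - FF p f δ y‖ ≤ (9 / δ + 4 * C) * ‖x - y‖ := by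
  have hC1 := S.one_le
  have hC : 0 < C := lt_of_lt_of_le one_pos hC1
  obtain ⟨τ, hτ0, hτ⟩ := exists_of_dL_lt hx
  have hyτ : ‖y - path p τ‖ < 4 * δ := by
    calc ‖y - path p τ‖ = ‖(x - path p τ) - (x - y)‖ := by congr 1; abel
      _ ≤ ‖x - path p τ‖ + ‖x - y‖ := norm_sub_le _ _
      _ < 4 * δ := by linarith
  have ex := S.pos_eq hδ hδC hτ0 (show ‖x - path p τ‖ < 4 * δ by linarith)
  have ey := S.pos_eq hδ hδC hτ0 hyτ
  have hpos : |pos p f δ x - pos p f δ y| ≤ 2 * C * ‖x - y‖ := by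
    rw [ex, ey]
    have h1 := clampR_lip 0 1 (2 * f ⌊τ⌋₊ x - 1/2) (2 * f ⌊τ⌋₊ y - 1/2)
    have h2 : 2 * f ⌊τ⌋₊ x - 1/2 - (2 * f ⌊τ⌋₊ y - 1/2) = 2 * f ⌊τ⌋₊ (x - y) := by
      rw [map_sub]; ring
    rw [h2, abs_mul, abs_two] at h1
    have h3 := S.abs_le ⌊τ⌋₊ (x - y)
    have h4 : (⌊τ⌋₊ : ℝ) + clampR 0 1 (2 * f ⌊τ⌋₊ x - 1/2) -
        ((⌊τ⌋₊ : ℝ) + clampR 0 1 (2 * f ⌊τ⌋₊ y - 1/2)) =
        clampR 0 1 (2 * f ⌊τ⌋₊ x - 1/2) - clampR 0 1 (2 * f ⌊τ⌋₊ y - 1/2) := by ring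
    rw [h4]
    nlinarith
  have hd := dL_lip (p := p) x y
  have hα : |alpha δ (dL p x) - alpha δ (dL p y)| ≤ 4 / δ * ‖x - y‖ := by
    unfold alpha
    refine (clampR_lip _ _ _ _).trans ?_
    have : 4 * (dL p x / δ - 1) - 2 - (4 * (dL p y / δ - 1) - 2) =
        (4 / δ) * (dL p x - dL p y) := by
      field_simp; ring
    rw [this, abs_mul, abs_of_pos (by positivity)]
    exact mul_le_mul_of_nonneg_left hd (by positivity)
  have hsl : |sfun δ (dL p x) - sfun δ (dL p y)| ≤ 1 / δ * ‖x - y‖ := by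
    unfold sfun
    refine (clampR_lip _ _ _ _).trans ?_
    have : dL p x / δ - 2 - (dL p y / δ - 2) = (1 / δ) * (dL p x - dL p y) := by
      field_simp; ring
    rw [this, abs_mul, abs_of_pos (by positivity)]
    exact mul_le_mul_of_nonneg_left hd (by positivity)
  unfold FF
  set A := path p (pos p f δ x - alpha δ (dL p x)) with hA
  set B := path p (pos p f δ y - alpha δ (dL p y)) with hB
  have hAB : ‖A - B‖ ≤ 2 * (2 * C * ‖x - y‖ + 4 / δ * ‖x - y‖) := by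
    refine (path_sub_le S.norm_p _ _).trans ?_
    refine mul_le_mul_of_nonneg_left ?_ (by norm_num)
    have : pos p f δ x - alpha δ (dL p x) - (pos p f δ y - alpha δ (dL p y)) =
      (pos p f δ x - pos p f δ y) - (alpha δ (dL p x) - alpha δ (dL p y)) := by ring
    rw [this]
    exact (abs_sub _ _).trans (add_le_add hpos hα)
  have hAn : ‖A‖ ≤ 1 := norm_path_le S.norm_p _
  have hs := clampR_mem zero_le_one (dL p y / δ - 2)
  have hs1 : 0 ≤ 1 - sfun δ (dL p y) := by unfold sfun; linarith [hs.2]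
  have hs2 : 1 - sfun δ (dL p y) ≤ 1 := by unfold sfun; linarith [hs.1]
  calc ‖(1 - sfun δ (dL p x)) • A - (1 - sfun δ (dL p y)) • B‖
      = ‖(sfun δ (dL p y) - sfun δ (dL p x)) • A + (1 - sfun δ (dL p y)) • (A - B)‖ := by
        congr 1; module
    _ ≤ ‖(sfun δ (dL p y) - sfun δ (dL p x)) • A‖ + ‖(1 - sfun δ (dL p y)) • (A - B)‖ :=
        norm_add_le _ _
    _ ≤ 1 / δ * ‖x - y‖ + 2 * (2 * C * ‖x - y‖ + 4 / δ * ‖x - y‖) := by
        rw [norm_smul, norm_smul, Real.norm_eq_abs, Real.norm_of_nonneg hs1, abs_sub_comm]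
        refine add_le_add ?_ ?_
        · calc _ ≤ |sfun δ (dL p x) - sfun δ (dL p y)| * 1 :=
                mul_le_mul_of_nonneg_left hAn (abs_nonneg _)
            _ ≤ _ := by rw [mul_one]; exact hsl
        · calc _ ≤ 1 * ‖A - B‖ := mul_le_mul_of_nonneg_right hs2 (norm_nonneg _)
            _ ≤ _ := by rw [one_mul]; exact hAB
    _ = (9 / δ + 4 * C) * ‖x - y‖ := by ring

lemma Sys.FF_lip (S : Sys p f C) (hδ : 0 < δ) (hδC : δ ≤ 1 / (100 * C ^ 2)) (x y : Y) :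
    ‖FF p f δ x - FF p f δ y‖ ≤ (9 / δ + 4 * C) * ‖x - y‖ := by
  have hC1 := S.one_le
  have hC : 0 < C := lt_of_lt_of_le one_pos hC1
  rcases lt_or_ge ‖x - y‖ δ with h | h
  · rcases lt_or_ge (dL p x) (3 * δ) with hx | hx
    · exact S.FF_lip_aux hδ hδC hx h
    · rcases lt_or_ge (dL p y) (3 * δ) with hy | hy
      · have := S.FF_lip_aux hδ hδC hy (by rwa [norm_sub_rev])
        rwa [norm_sub_rev, norm_sub_rev y x] at this
      · rw [FF_eq_zero hδ hx, FF_eq_zero hδ hy, sub_zero, norm_zero]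
        positivity
  · calc ‖FF p f δ x - FF p f δ y‖ ≤ ‖FF p f δ x‖ + ‖FF p f δ y‖ := norm_sub_le _ _
      _ ≤ 1 + 1 := add_le_add (norm_FF_le S.norm_p x) (norm_FF_le S.norm_p y)
      _ ≤ (9 / δ) * δ := by field_simp; norm_num
      _ ≤ (9 / δ + 4 * C) * ‖x - y‖ := by
        refine mul_le_mul ?_ h hδ.le (by positivity)
        linarith

end F

/-- Lipschitz retraction onto the unit sphere, in the form of a globally defined map. -/
theorem exists_sphere_retraction {Y : Type*} [NormedAddCommGroup Y] [NormedSpace ℝ Y]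
    (h : ¬ FiniteDimensional ℝ Y) :
    ∃ (K : ℝ) (R : Y → Y), 0 ≤ K ∧ (∀ x y, ‖R x - R y‖ ≤ K * ‖x - y‖) ∧ (∀ x, ‖R x‖ = 1) ∧
      ∀ x, 1 ≤ ‖x‖ → R x = ‖x‖⁻¹ • x := by
  obtain ⟨p, f, C, hC1, h1, h2, h3, h4, h5⟩ := exists_band h 8
  have S : Sys p f C := ⟨hC1, h1, h2, h3, h4, h5⟩
  have hC : 0 < C := lt_of_lt_of_le one_pos hC1
  set δ : ℝ := 1 / (100 * C ^ 2) with hδdef
  have hδ : 0 < δ := by positivity
  have hδ1 : δ ≤ 1 / 100 := by
    rw [hδdef]
    apply one_div_le_one_div_of_le (by norm_num)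
    nlinarith
  -- g
  set g : Y → Y := fun x => x - FF p f δ x with hg
  have gfar : ∀ x, δ ≤ ‖g x‖ := fun x => S.FF_far hδ le_rfl x
  have glip : ∀ x y, ‖g x - g y‖ ≤ (1 + (9 / δ + 4 * C)) * ‖x - y‖ := by
    intro x y
    calc ‖g x - g y‖ = ‖(x - y) - (FF p f δ x - FF p f δ y)‖ := by
          simp only [hg]; congr 1; abel
      _ ≤ ‖x - y‖ + ‖FF p f δ x - FF p f δ y‖ := norm_sub_le _ _
      _ ≤ _ := by
        have := S.FF_lip hδ le_rfl x y
        linarith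
  have gid : ∀ x, 2 ≤ ‖x‖ → g x = x := by
    intro x hx
    have : FF p f δ x = 0 := by
      apply FF_eq_zero hδ
      by_contra hcon
      push Not at hcon
      obtain ⟨τ, _, hτ⟩ := exists_of_dL_lt hcon
      have h6 : ‖x‖ ≤ ‖x - path p τ‖ + ‖path p τ‖ := by
        calc ‖x‖ = ‖(x - path p τ) + path p τ‖ := by congr 1; abel
          _ ≤ _ := norm_add_le _ _
      have h7 := norm_path_le h1 τ
      linarith
    simp only [hg, this, sub_zero]
  refine ⟨2 / δ * ((1 + (9 / δ + 4 * C)) * 2), fun x => ‖g ((2:ℝ) • x)‖⁻¹ • g ((2:ℝ) • x),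
    by positivity, ?_, ?_, ?_⟩
  · intro x y
    dsimp only
    set a := g ((2:ℝ) • x) with ha
    set b := g ((2:ℝ) • y) with hb
    have ha' : δ ≤ ‖a‖ := gfar _
    have hb' : δ ≤ ‖b‖ := gfar _
    have hapos : 0 < ‖a‖ := lt_of_lt_of_le hδ ha'
    have hbpos : 0 < ‖b‖ := lt_of_lt_of_le hδ hb'
    have hab : ‖a - b‖ ≤ ((1 + (9 / δ + 4 * C)) * 2) * ‖x - y‖ := by
      refine (glip _ _).trans ?_
      rw [← smul_sub, norm_smul, Real.norm_of_nonneg (by norm_num : (0:ℝ) ≤ 2)]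
      apply le_of_eq; ring
    have e1 : ‖a‖⁻¹ • a - ‖b‖⁻¹ • b = ‖a‖⁻¹ • (a - b) + (‖a‖⁻¹ - ‖b‖⁻¹) • b := by module
    have e2 : ‖(‖a‖⁻¹ - ‖b‖⁻¹) • b‖ ≤ ‖a‖⁻¹ * ‖a - b‖ := by
      rw [norm_smul, Real.norm_eq_abs]
      have : ‖a‖⁻¹ - ‖b‖⁻¹ = ‖a‖⁻¹ * ‖b‖⁻¹ * (‖b‖ - ‖a‖) := by
        field_simp
      rw [this, abs_mul, abs_of_pos (by positivity)]
      have h8 : |‖b‖ - ‖a‖| ≤ ‖a - b‖ := by
        rw [abs_sub_comm]; exact abs_norm_sub_norm_le a b
      calc ‖a‖⁻¹ * ‖b‖⁻¹ * |‖b‖ - ‖a‖| * ‖b‖ = ‖a‖⁻¹ * |‖b‖ - ‖a‖| * (‖b‖⁻¹ * ‖b‖) := by ring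
        _ = ‖a‖⁻¹ * |‖b‖ - ‖a‖| := by rw [inv_mul_cancel₀ hbpos.ne', mul_one]
        _ ≤ _ := mul_le_mul_of_nonneg_left h8 (by positivity)
    have e3 : ‖‖a‖⁻¹ • (a - b)‖ = ‖a‖⁻¹ * ‖a - b‖ := by
      rw [norm_smul, norm_inv, norm_norm]
    calc ‖‖a‖⁻¹ • a - ‖b‖⁻¹ • b‖ ≤ ‖‖a‖⁻¹ • (a - b)‖ + ‖(‖a‖⁻¹ - ‖b‖⁻¹) • b‖ := by
          rw [e1]; exact norm_add_le _ _
      _ ≤ 2 * (‖a‖⁻¹ * ‖a - b‖) := by rw [e3]; linarith
      _ ≤ 2 * (δ⁻¹ * (((1 + (9 / δ + 4 * C)) * 2) * ‖x - y‖)) := by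
          have h9 : ‖a‖⁻¹ ≤ δ⁻¹ := inv_anti₀ hδ ha'
          gcongr
      _ = _ := by rw [div_eq_mul_inv]; ring
  · intro x
    have : ‖g ((2:ℝ) • x)‖ ≠ 0 := (lt_of_lt_of_le hδ (gfar _)).ne'
    simp [norm_smul, this]
  · intro x hx
    have : g ((2:ℝ) • x) = (2:ℝ) • x := by
      apply gid
      rw [norm_smul, Real.norm_of_nonneg (by norm_num : (0:ℝ) ≤ 2)]
      linarith
    simp only [this, norm_smul, Real.norm_ofNat]
    rw [smul_smul]
    congr 1
    have : ‖x‖ ≠ 0 := by positivity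
    field_simp

end Pool.Agent.H30
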