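import Mathlib
import Pool.Agent.H30.Retract

open Metric Set

namespace Pool.Agent.H30

/-- Property (H) of the unit ball: for every `α ∈ (0,1)` there is a self-map of the closed unit
ball, all of whose iterates are `α`-Hölder with constant `1`, without fixed points and with
minimal displacement `0`. -/
def PropH (X : Type*) [NormedAddCommGroup X] [NormedSpace ℝ X] : Prop :=
  ∀ α : ℝ, 0 < α → α < 1 → ∃ T : closedBall (0 : X) 1 → closedBall (0 : X) 1,
    (∀ n : ℕ, 1 ≤ n → ∀ x y : closedBall (0 : X) 1,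
      ‖((T^[n] x : closedBall (0 : X) 1) : X) - (T^[n] y : closedBall (0 : X) 1)‖ ≤
        ‖(x : X) - y‖ ^ α) ∧
    (∀ x : closedBall (0 : X) 1, T x ≠ x) ∧
    (⨅ x : closedBall (0 : X) 1, ‖(x : X) - T x‖) = 0

/-- From a bounded map with uniformly Lipschitz iterates to property (H). -/
theorem propH_of_bounded {X : Type*} [NormedAddCommGroup X] [NormedSpace ℝ X]
    (S : X → X) (M L : ℝ) (hM : ∀ x, ‖S x‖ ≤ M)
    (hL : ∀ n : ℕ, 1 ≤ n → ∀ x y, ‖S^[n] x - S^[n] y‖ ≤ L * ‖x - y‖)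
    (hfix : ∀ x, S x ≠ x)
    (hdisp : ∀ δ : ℝ, 0 < δ → ∃ x, ‖x‖ ≤ M ∧ ‖x - S x‖ < δ) : PropH X := by
  intro α hα0 hα1
  have hM0 : 0 ≤ M := (norm_nonneg _).trans (hM 0)
  set L' : ℝ := max L 1 with hL'
  have hL'1 : 1 ≤ L' := le_max_right _ _
  have hL'0 : 0 < L' := by linarith
  set M' : ℝ := max M 1 with hM'
  have hM'1 : 1 ≤ M' := le_max_right _ _
  have hM'0 : 0 < M' := by linarith
  have h1α : 0 < 1 - α := by linarith
  set q : ℝ := L' ^ (-(α / (1 - α))) with hq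
  have hq0 : 0 < q := Real.rpow_pos_of_pos hL'0 _
  have hq1 : q ≤ 1 := by
    rw [hq]
    apply Real.rpow_le_one_of_one_le_of_nonpos hL'1
    have : 0 ≤ α / (1 - α) := by positivity
    linarith
  set ε : ℝ := q / (2 * M') with hε
  have hε0 : 0 < ε := by positivity
  have hεM : 2 * M' * ε = q := by rw [hε]; field_simp
  have hεM1 : M' * ε ≤ 1 := by linarith
  set Tε : X → X := fun x => ε • S (ε⁻¹ • x) with hTε
  have hit : ∀ n : ℕ, ∀ x, Tε^[n] x = ε • (S^[n] (ε⁻¹ • x)) := by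
    intro n
    induction n with
    | zero => intro x; simp [smul_smul, hε0.ne']
    | succ n ih =>
      intro x
      rw [Function.iterate_succ_apply', Function.iterate_succ_apply', ih]
      simp only [hTε]
      rw [smul_smul ε⁻¹ ε, inv_mul_cancel₀ hε0.ne', one_smul]
  have hbd : ∀ x, ‖Tε x‖ ≤ M' * ε := by
    intro x
    simp only [hTε]
    rw [norm_smul, Real.norm_of_nonneg hε0.le, mul_comm]
    exact mul_le_mul_of_nonneg_right ((hM _).trans (le_max_left _ _)) hε0.le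
  have hmaps : ∀ x : X, Tε x ∈ closedBall (0 : X) 1 := by
    intro x
    rw [mem_closedBall_zero_iff]
    exact (hbd x).trans hεM1
  set T : closedBall (0 : X) 1 → closedBall (0 : X) 1 := fun x => ⟨Tε x, hmaps x⟩ with hT
  have hTit : ∀ n : ℕ, ∀ x : closedBall (0 : X) 1,
      ((T^[n] x : closedBall (0 : X) 1) : X) = Tε^[n] x := by
    intro n
    induction n with
    | zero => intro x; rfl
    | succ n ih =>
      intro x
      rw [Function.iterate_succ_apply', Function.iterate_succ_apply']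
      simp only [hT]
      rw [ih]
  refine ⟨T, ?_, ?_, ?_⟩
  · intro n hn x y
    rw [hTit, hTit]
    set D := ‖Tε^[n] (x : X) - Tε^[n] (y : X)‖ with hD
    set d := ‖(x : X) - y‖ with hd
    have hD0 : 0 ≤ D := norm_nonneg _
    have hd0 : 0 ≤ d := norm_nonneg _
    have h1 : D ≤ L' * d := by
      rw [hD, hit, hit, ← smul_sub, norm_smul, Real.norm_of_nonneg hε0.le]
      have := hL n hn (ε⁻¹ • (x : X)) (ε⁻¹ • (y : X))
      rw [← smul_sub, norm_smul, norm_inv, Real.norm_of_nonneg hε0.le] at this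
      calc ε * ‖S^[n] (ε⁻¹ • (x : X)) - S^[n] (ε⁻¹ • (y : X))‖
          ≤ ε * (L * (ε⁻¹ * d)) := mul_le_mul_of_nonneg_left this hε0.le
        _ = L * d := by field_simp
        _ ≤ L' * d := mul_le_mul_of_nonneg_right (le_max_left _ _) hd0
    have h2 : D ≤ q := by
      obtain ⟨m, rfl⟩ : ∃ m, n = m + 1 := ⟨n - 1, by omega⟩
      rw [hD, Function.iterate_succ_apply', Function.iterate_succ_apply']
      calc _ ≤ ‖Tε (Tε^[m] (x : X))‖ + ‖Tε (Tε^[m] (y : X))‖ := norm_sub_le _ _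
        _ ≤ M' * ε + M' * ε := add_le_add (hbd _) (hbd _)
        _ = q := by rw [← hεM]; ring
    have h3 : D = D ^ α * D ^ (1 - α) := by
      rcases eq_or_lt_of_le hD0 with h | h
      · rw [← h, Real.zero_rpow hα0.ne', zero_mul]
      · rw [← Real.rpow_add h]; simp
    calc D = D ^ α * D ^ (1 - α) := h3
      _ ≤ (L' * d) ^ α * q ^ (1 - α) :=
          mul_le_mul (Real.rpow_le_rpow hD0 h1 hα0.le) (Real.rpow_le_rpow hD0 h2 h1α.le)
            (Real.rpow_nonneg hD0 _) (Real.rpow_nonneg (by positivity) _)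
      _ = d ^ α := by
          rw [Real.mul_rpow hL'0.le hd0, hq, ← Real.rpow_mul hL'0.le]
          have : -(α / (1 - α)) * (1 - α) = -α := by field_simp
          rw [this, Real.rpow_neg hL'0.le]
          have h5 : 0 < L' ^ α := Real.rpow_pos_of_pos hL'0 _
          field_simp
  · intro x hx
    have h1 : Tε (x : X) = x := congrArg Subtype.val hx
    apply hfix (ε⁻¹ • (x : X))
    simp only [hTε] at h1
    have h2 : ε⁻¹ • (ε • S (ε⁻¹ • (x : X))) = ε⁻¹ • (x : X) := by rw [h1]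
    rwa [smul_smul, inv_mul_cancel₀ hε0.ne', one_smul] at h2
  · haveI : Nonempty (closedBall (0 : X) 1) := ⟨⟨0, by simp⟩⟩
    have hbdd : BddBelow (range fun x : closedBall (0 : X) 1 => ‖(x : X) - T x‖) :=
      ⟨0, by rintro _ ⟨x, rfl⟩; exact norm_nonneg _⟩
    apply le_antisymm
    · refine le_of_forall_pos_lt_add ?_
      intro δ hδ
      obtain ⟨x, hx1, hx2⟩ := hdisp (δ / ε) (by positivity)
      have hxm : ε • x ∈ closedBall (0 : X) 1 := by
        rw [mem_closedBall_zero_iff, norm_smul, Real.norm_of_nonneg hε0.le]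
        calc ε * ‖x‖ ≤ ε * M' := mul_le_mul_of_nonneg_left (hx1.trans (le_max_left _ _)) hε0.le
          _ ≤ 1 := by rw [mul_comm]; exact hεM1
      calc (⨅ x : closedBall (0 : X) 1, ‖(x : X) - T x‖)
          ≤ ‖((⟨ε • x, hxm⟩ : closedBall (0 : X) 1) : X) - T ⟨ε • x, hxm⟩‖ :=
            ciInf_le hbdd ⟨ε • x, hxm⟩
        _ = ε * ‖x - S x‖ := by
            simp only [hT, hTε]
            rw [smul_smul, inv_mul_cancel₀ hε0.ne', one_smul, ← smul_sub, norm_smul,
              Real.norm_of_nonneg hε0.le]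
        _ < ε * (δ / ε) := mul_lt_mul_of_pos_left hx2 hε0
        _ = 0 + δ := by field_simp; ring
    · exact Real.iInf_nonneg fun x => norm_nonneg _

section A

variable {X : Type*} [NormedAddCommGroup X] [NormedSpace ℝ X]

/-- radial retraction onto the closed unit ball -/
noncomputable def zeta (x : X) : X := (max 1 ‖x‖)⁻¹ • x

lemma zeta_of_le {x : X} (h : ‖x‖ ≤ 1) : zeta x = x := by
  unfold zeta; rw [max_eq_left h]; simp

lemma norm_zeta_le (x : X) : ‖zeta x‖ ≤ 1 := by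
  unfold zeta
  have h1 : 0 < max 1 ‖x‖ := lt_of_lt_of_le one_pos (le_max_left _ _)
  rw [norm_smul, norm_inv, Real.norm_of_nonneg h1.le]
  rw [inv_mul_le_iff₀ h1, mul_one]
  exact le_max_right _ _

lemma zeta_lip (x y : X) : ‖zeta x - zeta y‖ ≤ 2 * ‖x - y‖ := by
  wlog hxy : ‖x‖ ≤ ‖y‖ generalizing x y
  · have := this y x (le_of_not_ge hxy)
    rwa [norm_sub_rev, norm_sub_rev y x] at this
  unfold zeta
  set a := max 1 ‖x‖ with ha
  set b := max 1 ‖y‖ with hb
  have ha1 : 1 ≤ a := le_max_left _ _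
  have hb1 : 1 ≤ b := le_max_left _ _
  have hya : ‖y‖ ≤ b := le_max_right _ _
  have hab : |b - a| ≤ ‖x - y‖ := by
    have h1 : |b - a| ≤ |‖y‖ - ‖x‖| := by
      have := abs_max_sub_max_le_max 1 ‖y‖ 1 ‖x‖
      simpa using this
    refine h1.trans ?_
    rw [abs_sub_comm]
    exact abs_norm_sub_norm_le x y
  have e : a⁻¹ • x - b⁻¹ • y = a⁻¹ • (x - y) + (a⁻¹ - b⁻¹) • y := by module
  have e1 : ‖a⁻¹ • (x - y)‖ ≤ ‖x - y‖ := by
    rw [norm_smul, norm_inv, Real.norm_of_nonneg (by linarith : (0:ℝ) ≤ a)]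
    have : a⁻¹ ≤ 1 := inv_le_one_of_one_le₀ ha1
    nlinarith [norm_nonneg (x - y)]
  have e2 : ‖(a⁻¹ - b⁻¹) • y‖ ≤ ‖x - y‖ := by
    rw [norm_smul, Real.norm_eq_abs]
    have h3 : a⁻¹ - b⁻¹ = a⁻¹ * b⁻¹ * (b - a) := by
      field_simp
    have ha0 : 0 < a⁻¹ := by positivity
    have hb0 : 0 < b⁻¹ := by positivity
    rw [h3, abs_mul, abs_of_pos (mul_pos ha0 hb0)]
    calc a⁻¹ * b⁻¹ * |b - a| * ‖y‖ ≤ a⁻¹ * b⁻¹ * |b - a| * b :=
          mul_le_mul_of_nonneg_left hya (by positivity)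
      _ = a⁻¹ * |b - a| := by field_simp
      _ ≤ 1 * |b - a| := mul_le_mul_of_nonneg_right (inv_le_one_of_one_le₀ ha1) (abs_nonneg _)
      _ ≤ ‖x - y‖ := by rw [one_mul]; exact hab
  calc ‖a⁻¹ • x - b⁻¹ • y‖ ≤ ‖a⁻¹ • (x - y)‖ + ‖(a⁻¹ - b⁻¹) • y‖ := by
        rw [e]; exact norm_add_le _ _
    _ ≤ ‖x - y‖ + ‖x - y‖ := add_le_add e1 e2
    _ = 2 * ‖x - y‖ := by ring

/-- scaled sphere retraction -/
lemma scaled_aux {P : X → Prop} {K : ℝ} (hK : 0 ≤ K) {R : X → X}
    (h1 : ∀ x y, ‖R x - R y‖ ≤ K * ‖x - y‖) (h2 : ∀ x, ‖R x‖ = 1)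
    (h3 : ∀ x, P x → 1 ≤ ‖x‖ → R x = ‖x‖⁻¹ • x) (hP : ∀ (c : ℝ) x, P x → P (c • x))
    {r s : ℝ} (hr : 0 < r) (hs : 0 < s) {y : X} (hy : P y) :
    ‖r • R (r⁻¹ • y) - s • R (s⁻¹ • y)‖ ≤ (1 + K) * |r - s| := by
  wlog hrs : r ≤ s generalizing r s
  · have := this hs hr (le_of_not_ge hrs)
    rwa [norm_sub_rev, abs_sub_comm]
  have e : r • R (r⁻¹ • y) - s • R (s⁻¹ • y) =
      r • (R (r⁻¹ • y) - R (s⁻¹ • y)) + (r - s) • R (s⁻¹ • y) := by module
  have e1 : ‖(r - s) • R (s⁻¹ • y)‖ = |r - s| := by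
    rw [norm_smul, h2, mul_one, Real.norm_eq_abs]
  have e2 : ‖r • (R (r⁻¹ • y) - R (s⁻¹ • y))‖ ≤ K * |r - s| := by
    rw [norm_smul, Real.norm_of_nonneg hr.le]
    rcases le_or_gt ‖y‖ s with h | h
    · have h4 := h1 (r⁻¹ • y) (s⁻¹ • y)
      have h5 : ‖r⁻¹ • y - s⁻¹ • y‖ = r⁻¹ * s⁻¹ * |r - s| * ‖y‖ := by
        rw [← sub_smul, norm_smul, Real.norm_eq_abs]
        have : r⁻¹ - s⁻¹ = -(r⁻¹ * s⁻¹ * (r - s)) := by field_simp; ring
        rw [this, abs_neg, abs_mul, abs_of_pos (by positivity)]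
      rw [h5] at h4
      calc r * ‖R (r⁻¹ • y) - R (s⁻¹ • y)‖ ≤ r * (K * (r⁻¹ * s⁻¹ * |r - s| * ‖y‖)) :=
            mul_le_mul_of_nonneg_left h4 hr.le
        _ = K * |r - s| * (s⁻¹ * ‖y‖) := by field_simp
        _ ≤ K * |r - s| * 1 := by
            apply mul_le_mul_of_nonneg_left _ (by positivity)
            rw [inv_mul_le_iff₀ hs]; linarith
        _ = K * |r - s| := by ring
    · have hy0 : 0 < ‖y‖ := by linarith
      have key : ∀ t : ℝ, 0 < t → t < ‖y‖ → R (t⁻¹ • y) = ‖y‖⁻¹ • y := by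
        intro t ht hty
        rw [h3 (t⁻¹ • y) (hP _ _ hy)]
        · rw [norm_smul, norm_inv, Real.norm_of_nonneg ht.le, smul_smul]
          congr 1
          field_simp
        · rw [norm_smul, norm_inv, Real.norm_of_nonneg ht.le]
          rw [le_inv_mul_iff₀ ht]; linarith
      rw [key r hr (by linarith), key s hs h, sub_self, norm_zero, mul_zero]
      positivity
  calc _ ≤ ‖r • (R (r⁻¹ • y) - R (s⁻¹ • y))‖ + ‖(r - s) • R (s⁻¹ • y)‖ := by
        rw [e]; exact norm_add_le _ _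
    _ ≤ K * |r - s| + |r - s| := by rw [e1]; linarith
    _ = (1 + K) * |r - s| := by ring

/-- the size function -/
noncomputable def rho (c : ℕ → X) (z : X) : ℝ := ⨅ k : ℕ, (‖z - c k‖ + 1 / ((k : ℝ) + 1))

lemma rho_bdd (c : ℕ → X) (z : X) : BddBelow (range fun k : ℕ => ‖z - c k‖ + 1 / ((k : ℝ) + 1)) :=
  ⟨0, by rintro _ ⟨k, rfl⟩; positivity⟩

lemma rho_le (c : ℕ → X) (z : X) (k : ℕ) : rho c z ≤ ‖z - c k‖ + 1 / ((k : ℝ) + 1) :=
  ciInf_le (rho_bdd c z) k

lemma rho_lip_aux (c : ℕ → X) (z w : X) : rho c z ≤ rho c w + ‖z - w‖ := by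
  rw [← sub_le_iff_le_add]
  apply le_ciInf
  intro k
  have h1 := rho_le c z k
  have h2 : ‖z - c k‖ ≤ ‖z - w‖ + ‖w - c k‖ := by
    calc ‖z - c k‖ = ‖(z - w) + (w - c k)‖ := by congr 1; abel
      _ ≤ _ := norm_add_le _ _
  linarith

lemma rho_lip (c : ℕ → X) (z w : X) : |rho c z - rho c w| ≤ ‖z - w‖ := by
  rw [abs_le]
  have h1 := rho_lip_aux c z w
  have h2 := rho_lip_aux c w z
  rw [norm_sub_rev w z] at h2
  constructor <;> linarith

lemma rho_pos {c : ℕ → X} {s : ℝ} (hs : 0 < s) (hsep : ∀ m n, m ≠ n → s ≤ ‖c m - c n‖) (z : X) :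
    0 < rho c z := by
  -- at most one `k` with `‖z - c k‖ < s/2`
  obtain ⟨t, ht0, ht⟩ : ∃ t : ℝ, 0 < t ∧ ∀ k : ℕ, t ≤ ‖z - c k‖ + 1 / ((k : ℝ) + 1) := by
    by_cases h : ∃ k, ‖z - c k‖ < s / 2
    · obtain ⟨k₀, hk₀⟩ := h
      refine ⟨min (1 / ((k₀ : ℝ) + 1)) (s / 2), by positivity, ?_⟩
      intro k
      by_cases hk : k = k₀
      · subst hk
        calc _ ≤ 1 / ((k : ℝ) + 1) := min_le_left _ _
          _ ≤ _ := by linarith [norm_nonneg (z - c k)]
      · have h1 := hsep k k₀ hk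
        have h2 : ‖c k - c k₀‖ ≤ ‖z - c k‖ + ‖z - c k₀‖ := by
          calc ‖c k - c k₀‖ = ‖(z - c k₀) - (z - c k)‖ := by congr 1; abel
            _ ≤ ‖z - c k₀‖ + ‖z - c k‖ := norm_sub_le _ _
            _ = _ := add_comm _ _
        have h3 : (0:ℝ) < 1 / ((k : ℝ) + 1) := by positivity
        calc _ ≤ s / 2 := min_le_right _ _
          _ ≤ _ := by linarith
    · push Not at h
      refine ⟨s / 2, by positivity, fun k => ?_⟩
      have h3 : (0:ℝ) < 1 / ((k : ℝ) + 1) := by positivity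
      linarith [h k]
  exact lt_of_lt_of_le ht0 (le_ciInf ht)

end A

/-- **Main theorem A.** A real normed space which is the topological direct sum of two
infinite-dimensional subspaces has property (H). -/
theorem propH_of_decomposable {X : Type*} [NormedAddCommGroup X] [NormedSpace ℝ X]
    (P : X →L[ℝ] X) (hP : ∀ x, P (P x) = P x)
    (hr : ¬ FiniteDimensional ℝ (LinearMap.range (P : X →ₗ[ℝ] X)))
    (hk : ¬ FiniteDimensional ℝ (LinearMap.ker (P : X →ₗ[ℝ] X))) : PropH X := by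
  -- the sphere retraction
  obtain ⟨K, R₀, hK0, hR1, hR2, hR3⟩ := exists_sphere_retraction hk
  have hker : ∀ x : X, x - P x ∈ LinearMap.ker (P : X →ₗ[ℝ] X) := by
    intro x
    rw [LinearMap.mem_ker]
    simp [hP]
  set R : X → X := fun x => (R₀ ⟨x - P x, hker x⟩ : X) with hR
  have hQ : ∀ x y : X, ‖(x - P x) - (y - P y)‖ ≤ (1 + ‖P‖) * ‖x - y‖ := by
    intro x y
    calc ‖(x - P x) - (y - P y)‖ = ‖(x - y) - P (x - y)‖ := by
          rw [map_sub]; congr 1; abel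
      _ ≤ ‖x - y‖ + ‖P (x - y)‖ := norm_sub_le _ _
      _ ≤ ‖x - y‖ + ‖P‖ * ‖x - y‖ := by gcongr; exact P.le_opNorm _
      _ = _ := by ring
  have hRl : ∀ x y, ‖R x - R y‖ ≤ (K * (1 + ‖P‖)) * ‖x - y‖ := by
    intro x y
    have := hR1 ⟨x - P x, hker x⟩ ⟨y - P y, hker y⟩
    calc ‖R x - R y‖ = ‖R₀ ⟨x - P x, hker x⟩ - R₀ ⟨y - P y, hker y⟩‖ := rfl
      _ ≤ K * ‖(⟨x - P x, hker x⟩ : LinearMap.ker (P : X →ₗ[ℝ] X)) - ⟨y - P y, hker y⟩‖ := this
      _ = K * ‖(x - P x) - (y - P y)‖ := rfl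
      _ ≤ K * ((1 + ‖P‖) * ‖x - y‖) := mul_le_mul_of_nonneg_left (hQ x y) hK0
      _ = _ := by ring
  have hRn : ∀ x, ‖R x‖ = 1 := fun x => hR2 _
  have hRP : ∀ x, P (R x) = 0 := by
    intro x
    have := (R₀ ⟨x - P x, hker x⟩).2
    rwa [LinearMap.mem_ker] at this
  have hRid : ∀ x, P x = 0 → 1 ≤ ‖x‖ → R x = ‖x‖⁻¹ • x := by
    intro x hx hx1
    have h1 : (⟨x - P x, hker x⟩ : LinearMap.ker (P : X →ₗ[ℝ] X)) =
        ⟨x, by rw [LinearMap.mem_ker]; exact hx⟩ := by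
      apply Subtype.ext; simp [hx]
    have h2 := hR3 ⟨x, by rw [LinearMap.mem_ker]; exact hx⟩ hx1
    simp only [hR]
    rw [h1, h2]
    rfl
  -- the centres
  obtain ⟨D, g, hD1, hgD, hgs⟩ := exists_seq_norm_le_one_le_norm_sub hr
  set c : ℕ → X := fun k => D⁻¹ • (g k : X) with hc
  have hD0 : 0 < D := by linarith
  have hPg : ∀ k, P (g k : X) = g k := by
    intro k
    obtain ⟨w, hw⟩ := (g k).2
    rw [← hw]
    exact hP w
  have hPc : ∀ k, P (c k) = c k := by
    intro k; simp only [hc, map_smul, hPg]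
  have hc1 : ∀ k, ‖c k‖ ≤ 1 := by
    intro k
    simp only [hc]
    rw [norm_smul, norm_inv, Real.norm_of_nonneg hD0.le, inv_mul_le_iff₀ hD0, mul_one]
    exact hgD k
  have hcs : ∀ m n, m ≠ n → D⁻¹ ≤ ‖c m - c n‖ := by
    intro m n hmn
    simp only [hc]
    rw [← smul_sub, norm_smul, norm_inv, Real.norm_of_nonneg hD0.le]
    have : 1 ≤ ‖(g m : X) - g n‖ := hgs hmn
    calc D⁻¹ = D⁻¹ * 1 := by ring
      _ ≤ _ := mul_le_mul_of_nonneg_left this (by positivity)
  have hρ0 : ∀ z, 0 < rho c z := rho_pos (by positivity) hcs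
  -- the map
  set S : X → X := fun x => zeta (P x) - (rho c (zeta (P x))) •
      R ((rho c (zeta (P x)))⁻¹ • (x - P x)) with hS
  set S' : X → X := fun x => zeta (P x) + (rho c (zeta (P x))) •
      R ((rho c (zeta (P x)))⁻¹ • (x - P x)) with hS'
  have hPz : ∀ x, P (zeta (P x)) = zeta (P x) := by
    intro x; simp [zeta, hP]
  have hPS : ∀ x, P (S x) = zeta (P x) := by
    intro x
    simp only [hS, map_sub, map_smul, hRP, smul_zero, sub_zero, hPz]
  have hPS' : ∀ x, P (S' x) = zeta (P x) := by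
    intro x
    simp only [hS', map_add, map_smul, hRP, smul_zero, add_zero, hPz]
  have hzz : ∀ x : X, zeta (zeta (P x)) = zeta (P x) := fun x => zeta_of_le (norm_zeta_le _)
  have hneg : ∀ u : X, ‖u‖ = 1 → P u = 0 → R u = u := by
    intro u hu hPu
    rw [hRid u hPu hu.ge, hu]; simp
  have hSS : ∀ x, S (S x) = S' x := by
    intro x
    have h1 : S x - P (S x) = -((rho c (zeta (P x))) •
      R ((rho c (zeta (P x)))⁻¹ • (x - P x))) := by
      rw [hPS]; simp only [hS]; abel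
    have h2 : S (S x) = zeta (P (S x)) - (rho c (zeta (P (S x)))) •
      R ((rho c (zeta (P (S x))))⁻¹ • (S x - P (S x))) := rfl
    rw [h2, h1, hPS, hzz]
    set ρ := rho c (zeta (P x)) with hρ
    have hρp : 0 < ρ := hρ0 _
    rw [smul_neg, smul_smul, inv_mul_cancel₀ hρp.ne', one_smul]
    rw [hneg (-R (ρ⁻¹ • (x - P x))) (by rw [norm_neg, hRn]) (by rw [map_neg, hRP, neg_zero])]
    simp only [hS', ← hρ]
    rw [smul_neg, sub_neg_eq_add]
  have hSS' : ∀ x, S (S' x) = S x := by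
    intro x
    have h1 : S' x - P (S' x) = ((rho c (zeta (P x))) •
      R ((rho c (zeta (P x)))⁻¹ • (x - P x))) := by
      rw [hPS']; simp only [hS']; abel
    have h2 : S (S' x) = zeta (P (S' x)) - (rho c (zeta (P (S' x)))) •
      R ((rho c (zeta (P (S' x))))⁻¹ • (S' x - P (S' x))) := rfl
    rw [h2, h1, hPS', hzz]
    set ρ := rho c (zeta (P x)) with hρ
    have hρp : 0 < ρ := hρ0 _
    rw [smul_smul, inv_mul_cancel₀ hρp.ne', one_smul]
    rw [hneg (R (ρ⁻¹ • (x - P x))) (hRn _) (hRP _)]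
  have hiter : ∀ n : ℕ, 1 ≤ n → (S^[n] = S ∨ S^[n] = S') := by
    intro n hn
    induction n, hn using Nat.le_induction with
    | base => left; simp
    | succ n _ ih =>
      rcases ih with h | h
      · right
        funext x
        rw [Function.iterate_succ_apply', h, hSS]
      · left
        funext x
        rw [Function.iterate_succ_apply', h, hSS']
  -- Lipschitz estimate of the sphere part
  have hlip : ∀ x y, ‖(rho c (zeta (P x))) • R ((rho c (zeta (P x)))⁻¹ • (x - P x)) -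
      (rho c (zeta (P y))) • R ((rho c (zeta (P y)))⁻¹ • (y - P y))‖ ≤
      ((K * (1 + ‖P‖)) * (1 + ‖P‖) + (1 + K * (1 + ‖P‖)) * (2 * ‖P‖)) * ‖x - y‖ := by
    intro x y
    set r := rho c (zeta (P x)) with hr'
    set s := rho c (zeta (P y)) with hs'
    have hr0 : 0 < r := hρ0 _
    have hs0 : 0 < s := hρ0 _
    have hrs : |r - s| ≤ 2 * ‖P‖ * ‖x - y‖ := by
      refine (rho_lip c _ _).trans ?_
      refine (zeta_lip _ _).trans ?_
      rw [← map_sub, mul_assoc]
      exact mul_le_mul_of_nonneg_left (P.le_opNorm _) (by norm_num)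
    have e1 : ‖r • R (r⁻¹ • (x - P x)) - r • R (r⁻¹ • (y - P y))‖ ≤
        (K * (1 + ‖P‖)) * (1 + ‖P‖) * ‖x - y‖ := by
      rw [← smul_sub, norm_smul, Real.norm_of_nonneg hr0.le]
      have h1 := hRl (r⁻¹ • (x - P x)) (r⁻¹ • (y - P y))
      rw [← smul_sub, norm_smul, norm_inv, Real.norm_of_nonneg hr0.le] at h1
      calc r * ‖R (r⁻¹ • (x - P x)) - R (r⁻¹ • (y - P y))‖
          ≤ r * ((K * (1 + ‖P‖)) * (r⁻¹ * ‖(x - P x) - (y - P y)‖)) :=
            mul_le_mul_of_nonneg_left h1 hr0.le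
        _ = (K * (1 + ‖P‖)) * ‖(x - P x) - (y - P y)‖ := by field_simp
        _ ≤ (K * (1 + ‖P‖)) * ((1 + ‖P‖) * ‖x - y‖) :=
            mul_le_mul_of_nonneg_left (hQ x y) (by positivity)
        _ = _ := by ring
    have e2 : ‖r • R (r⁻¹ • (y - P y)) - s • R (s⁻¹ • (y - P y))‖ ≤
        (1 + K * (1 + ‖P‖)) * |r - s| := by
      refine scaled_aux (P := fun x => P x = 0) (by positivity) hRl hRn hRid ?_ hr0 hs0 ?_
      · intro a x hx
        rw [map_smul, hx, smul_zero]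
      · simp [hP]
    calc _ = ‖(r • R (r⁻¹ • (x - P x)) - r • R (r⁻¹ • (y - P y))) +
          (r • R (r⁻¹ • (y - P y)) - s • R (s⁻¹ • (y - P y)))‖ := by congr 1; abel
      _ ≤ _ := norm_add_le _ _
      _ ≤ (K * (1 + ‖P‖)) * (1 + ‖P‖) * ‖x - y‖ +
          (1 + K * (1 + ‖P‖)) * (2 * ‖P‖ * ‖x - y‖) := by
          refine add_le_add e1 (e2.trans ?_)
          exact mul_le_mul_of_nonneg_left hrs (by positivity)
      _ = _ := by ring
  have hzl : ∀ x y, ‖zeta (P x) - zeta (P y)‖ ≤ (2 * ‖P‖) * ‖x - y‖ := by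
    intro x y
    refine (zeta_lip _ _).trans ?_
    rw [← map_sub, mul_assoc]
    exact mul_le_mul_of_nonneg_left (P.le_opNorm _) (by norm_num)
  set L : ℝ := 2 * ‖P‖ + ((K * (1 + ‖P‖)) * (1 + ‖P‖) + (1 + K * (1 + ‖P‖)) * (2 * ‖P‖)) with hL
  have hSl : ∀ x y, ‖S x - S y‖ ≤ L * ‖x - y‖ := by
    intro x y
    calc ‖S x - S y‖ = ‖(zeta (P x) - zeta (P y)) -
          ((rho c (zeta (P x))) • R ((rho c (zeta (P x)))⁻¹ • (x - P x)) -
          (rho c (zeta (P y))) • R ((rho c (zeta (P y)))⁻¹ • (y - P y)))‖ := by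
          simp only [hS]; congr 1; abel
      _ ≤ _ := norm_sub_le _ _
      _ ≤ _ := add_le_add (hzl x y) (hlip x y)
      _ = _ := by rw [hL]; ring
  have hSl' : ∀ x y, ‖S' x - S' y‖ ≤ L * ‖x - y‖ := by
    intro x y
    calc ‖S' x - S' y‖ = ‖(zeta (P x) - zeta (P y)) +
          ((rho c (zeta (P x))) • R ((rho c (zeta (P x)))⁻¹ • (x - P x)) -
          (rho c (zeta (P y))) • R ((rho c (zeta (P y)))⁻¹ • (y - P y)))‖ := by
          simp only [hS']; congr 1; abel
      _ ≤ _ := norm_add_le _ _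
      _ ≤ _ := add_le_add (hzl x y) (hlip x y)
      _ = _ := by rw [hL]; ring
  have hρ3 : ∀ x : X, rho c (zeta (P x)) ≤ 3 := by
    intro x
    have h1 := rho_le c (zeta (P x)) 0
    have h2 : ‖zeta (P x) - c 0‖ ≤ 1 + 1 :=
      (norm_sub_le _ _).trans (add_le_add (norm_zeta_le _) (hc1 0))
    simp only [CharP.cast_eq_zero, zero_add, div_one] at h1
    linarith
  refine propH_of_bounded S 4 L ?_ ?_ ?_ ?_
  · intro x
    calc ‖S x‖ ≤ ‖zeta (P x)‖ + ‖(rho c (zeta (P x))) •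
          R ((rho c (zeta (P x)))⁻¹ • (x - P x))‖ := norm_sub_le _ _
      _ ≤ 1 + 3 := by
          refine add_le_add (norm_zeta_le _) ?_
          rw [norm_smul, hRn, mul_one, Real.norm_of_nonneg (hρ0 _).le]
          exact hρ3 x
      _ = 4 := by norm_num
  · intro n hn x y
    rcases hiter n hn with h | h
    · rw [h]; exact hSl x y
    · rw [h]; exact hSl' x y
  · intro x hx
    have h1 : S x = S' x := by rw [← hSS, hx, hx]
    simp only [hS, hS'] at h1
    have h2 : (rho c (zeta (P x))) • R ((rho c (zeta (P x)))⁻¹ • (x - P x)) = 0 := by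
      have h3 : (2 : ℝ) • ((rho c (zeta (P x))) •
          R ((rho c (zeta (P x)))⁻¹ • (x - P x))) = 0 := by
        rw [two_smul]
        have := sub_eq_iff_eq_add.mp h1
        have h4 : zeta (P x) + ((rho c (zeta (P x))) •
          R ((rho c (zeta (P x)))⁻¹ • (x - P x)) + (rho c (zeta (P x))) •
          R ((rho c (zeta (P x)))⁻¹ • (x - P x))) = zeta (P x) + 0 := by
          rw [add_zero, ← add_assoc]; exact this.symm
        exact add_left_cancel h4
      rcases smul_eq_zero.mp h3 with h | h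
      · norm_num at h
      · exact h
    have h5 := congrArg norm h2
    rw [norm_smul, hRn, mul_one, norm_zero, norm_eq_zero] at h5
    exact (hρ0 _).ne' h5
  · intro δ hδ
    -- choose k large
    obtain ⟨k, hk⟩ := exists_nat_gt (2 / δ)
    -- a unit vector in the kernel
    obtain ⟨u, hu1, hPu⟩ : ∃ u : X, ‖u‖ = 1 ∧ P u = 0 := ⟨R 0, hRn 0, hRP 0⟩
    have hρk : rho c (c k) ≤ 1 / ((k : ℝ) + 1) := by
      have := rho_le c (c k) k
      simpa using this
    have hρp := hρ0 (c k)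
    have hk1 : 1 / ((k : ℝ) + 1) ≤ 1 := by
      rw [div_le_one (by positivity)]; linarith [(Nat.cast_nonneg k : (0:ℝ) ≤ k)]
    refine ⟨c k + rho c (c k) • u, ?_, ?_⟩
    · calc ‖c k + rho c (c k) • u‖ ≤ ‖c k‖ + ‖rho c (c k) • u‖ := norm_add_le _ _
        _ ≤ 1 + 1 := by
          refine add_le_add (hc1 k) ?_
          rw [norm_smul, hu1, mul_one, Real.norm_of_nonneg hρp.le]
          exact hρk.trans hk1
        _ ≤ 4 := by norm_num
    · have h1 : P (c k + rho c (c k) • u) = c k := by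
        rw [map_add, hPc, map_smul, hPu, smul_zero, add_zero]
      have h2 : S (c k + rho c (c k) • u) = c k - rho c (c k) • u := by
        simp only [hS]
        rw [h1, zeta_of_le (hc1 k)]
        have h3 : c k + rho c (c k) • u - c k = rho c (c k) • u := by abel
        rw [h3, smul_smul, inv_mul_cancel₀ hρp.ne', one_smul, hneg u hu1 hPu]
      rw [h2]
      have h4 : c k + rho c (c k) • u - (c k - rho c (c k) • u) = (2 * rho c (c k)) • u := by
        module
      rw [h4, norm_smul, hu1, mul_one, Real.norm_of_nonneg (by positivity)]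
      have h5 : 1 / ((k : ℝ) + 1) < δ / 2 := by
        rw [div_lt_div_iff₀ (by positivity) (by norm_num)]
        rw [div_lt_iff₀ hδ] at hk
        nlinarith
      linarith

end Pool.Agent.H30
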