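import Mathlib
import Pool.Agent.H30.Decomp

open Metric Set Filter Topology

namespace Pool.Agent.H30

lemma not_finiteDimensional_of_biorth {V : Type*} [AddCommGroup V] [Module ℝ V] (v : ℕ → V)
    (φ : ℕ → V →ₗ[ℝ] ℝ) (h : ∀ m n, φ m (v n) = if m = n then 1 else 0) :
    ¬ FiniteDimensional ℝ V := by
  intro hfin
  have hli : LinearIndependent ℝ v := by
    rw [linearIndependent_iff']
    intro s g hg i hi
    have h1 := congrArg (φ i) hg
    rw [map_sum, map_zero] at h1
    simp only [map_smul, h, smul_eq_mul, mul_ite, mul_one, mul_zero] at h1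
    rw [Finset.sum_ite_eq] at h1
    simpa [hi] using h1
  have : Finite ℕ := hli.finite_of_isNoetherian
  exact not_finite ℕ

/-! ### Unconditional bases -/

section Unc

variable {X : Type*} [NormedAddCommGroup X] [NormedSpace ℝ X] {β : Type*}
  (b : UnconditionalSchauderBasis β ℝ X)

lemma unc_hasSum (x : X) : HasSum (fun i => b.coord i x • b i) x := by
  simpa using b.expansion x

lemma unc_ext {x y : X} (h : ∀ i, b.coord i x = b.coord i y) : x = y := by
  have h1 := unc_hasSum b x
  have h2 := unc_hasSum b y
  simp only [h] at h1
  exact h1.unique h2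

lemma coord_self (i : β) : b.coord i (b i) = 1 := by
  classical
  rw [b.ortho]; simp

lemma coord_ne {i j : β} (h : i ≠ j) : b.coord i (b j) = 0 := by
  classical
  rw [b.ortho]; simp [h]

variable [CompleteSpace X]

/-- coordinate projection onto a set of indices -/
noncomputable def pA (A : Set β) (x : X) : X := ∑' i, A.indicator (fun i => b.coord i x • b i) i

open Classical in
lemma coord_pA (A : Set β) (x : X) (j : β) :
    b.coord j (pA b A x) = if j ∈ A then b.coord j x else 0 := by
  unfold pA
  have hs : Summable (A.indicator (fun i => b.coord i x • b i)) :=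
    (unc_hasSum b x).summable.indicator A
  rw [(b.coord j).map_tsum hs]
  rw [tsum_eq_single j]
  · by_cases hj : j ∈ A
    · rw [Set.indicator_of_mem hj, if_pos hj, map_smul, coord_self, smul_eq_mul, mul_one]
    · rw [Set.indicator_of_notMem hj, if_neg hj, map_zero]
  · intro i hi
    by_cases hiA : i ∈ A
    · rw [Set.indicator_of_mem hiA, map_smul, coord_ne b (Ne.symm hi), smul_zero]
    · rw [Set.indicator_of_notMem hiA, map_zero]

/-- linear version -/
noncomputable def pAlin (A : Set β) : X →ₗ[ℝ] X where
  toFun := pA b A
  map_add' x y := by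
    apply unc_ext b
    intro j
    rw [map_add, coord_pA, coord_pA, coord_pA, map_add]
    split_ifs <;> simp
  map_smul' c x := by
    apply unc_ext b
    intro j
    rw [RingHom.id_apply, map_smul, coord_pA, coord_pA, map_smul]
    split_ifs <;> simp

lemma pAlin_continuous (A : Set β) : Continuous (pAlin b A) := by
  apply LinearMap.continuous_of_seq_closed_graph
  intro u x y hu hy
  apply unc_ext b
  intro j
  have h1 : Tendsto (fun n => b.coord j (pAlin b A (u n))) atTop (𝓝 (b.coord j y)) :=
    ((b.coord j).continuous.tendsto y).comp hy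
  have h2 : Tendsto (fun n => b.coord j (pAlin b A (u n))) atTop
      (𝓝 (b.coord j (pAlin b A x))) := by
    have h3 : Tendsto (fun n => b.coord j (u n)) atTop (𝓝 (b.coord j x)) :=
      ((b.coord j).continuous.tendsto x).comp hu
    change Tendsto (fun n => b.coord j (pA b A (u n))) atTop (𝓝 (b.coord j (pA b A x)))
    simp only [coord_pA]
    by_cases hj : j ∈ A
    · simpa [hj] using h3
    · simp [hj]
  exact tendsto_nhds_unique h1 h2

/-- the bounded coordinate projection -/
noncomputable def pAc (A : Set β) : X →L[ℝ] X := ⟨pAlin b A, pAlin_continuous b A⟩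

lemma pAc_apply (A : Set β) (x : X) : pAc b A x = pA b A x := rfl

include b in
theorem propH_of_unconditional_infinite [Infinite β] : PropH X := by
  classical
  set φ := Infinite.natEmbedding β with hφ
  set A : Set β := φ '' {n | Even n} with hA
  refine propH_of_decomposable (pAc b A) ?_ ?_ ?_
  · intro x
    apply unc_ext b
    intro j
    simp only [pAc_apply, coord_pA]
    split_ifs <;> rfl
  · have hmem : ∀ n, b (φ (2 * n)) ∈ LinearMap.range (pAc b A : X →ₗ[ℝ] X) := by
      intro n
      refine ⟨b (φ (2 * n)), ?_⟩
      apply unc_ext b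
      intro j
      change b.coord j (pA b A (b (φ (2 * n)))) = _
      rw [coord_pA]
      split_ifs with hj
      · rfl
      · have : j ≠ φ (2 * n) := by
          rintro rfl
          exact hj ⟨2 * n, by simp, rfl⟩
        rw [coord_ne b this]
    refine not_finiteDimensional_of_biorth (fun n => ⟨b (φ (2 * n)), hmem n⟩)
      (fun m => ((b.coord (φ (2 * m)) : X →L[ℝ] ℝ) : X →ₗ[ℝ] ℝ).comp (Submodule.subtype _)) ?_
    intro m n
    change b.coord (φ (2 * m)) (b (φ (2 * n))) = _
    split_ifs with h
    · rw [h, coord_self]
    · apply coord_ne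
      intro h1
      exact h (by have := φ.injective h1; omega)
  · have hmem : ∀ n, b (φ (2 * n + 1)) ∈ LinearMap.ker (pAc b A : X →ₗ[ℝ] X) := by
      intro n
      rw [LinearMap.mem_ker]
      apply unc_ext b
      intro j
      change b.coord j (pA b A (b (φ (2 * n + 1)))) = _
      rw [coord_pA, map_zero]
      split_ifs with hj
      · obtain ⟨k, hk, rfl⟩ := hj
        apply coord_ne
        intro h1
        have := φ.injective h1
        subst this
        simp only [mem_setOf_eq] at hk
        rcases hk with ⟨r, hr⟩
        omega
      · rfl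
    refine not_finiteDimensional_of_biorth (fun n => ⟨b (φ (2 * n + 1)), hmem n⟩)
      (fun m => ((b.coord (φ (2 * m + 1)) : X →L[ℝ] ℝ) : X →ₗ[ℝ] ℝ).comp (Submodule.subtype _)) ?_
    intro m n
    change b.coord (φ (2 * m + 1)) (b (φ (2 * n + 1))) = _
    split_ifs with h
    · rw [h, coord_self]
    · apply coord_ne
      intro h1
      exact h (by have := φ.injective h1; omega)

include b in
theorem propH_of_unconditional (hX : ¬ FiniteDimensional ℝ X) : PropH X := by
  classical
  have : Infinite β := by
    by_contra hcon
    rw [not_infinite_iff_finite] at hcon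
    apply hX
    have := Fintype.ofFinite β
    have htop : Submodule.span ℝ (Set.range b.basis) = ⊤ := by
      rw [eq_top_iff]
      intro x _
      have h1 := (unc_hasSum b x).unique (hasSum_fintype _)
      rw [h1]
      exact Submodule.sum_mem _ fun i _ => Submodule.smul_mem _ _
        (Submodule.subset_span ⟨i, rfl⟩)
    exact Module.Finite.of_fg_top (by rw [← htop]; exact Submodule.fg_span (Set.finite_range _))
  exact propH_of_unconditional_infinite b

end Unc

/-- a Hilbertian space has an unconditional basis -/
theorem propH_of_hilbert {X : Type*} [NormedAddCommGroup X] [NormedSpace ℝ X]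
    {H : Type*} [NormedAddCommGroup H] [InnerProductSpace ℝ H] [CompleteSpace H]
    (e : X ≃L[ℝ] H) (hX : ¬ FiniteDimensional ℝ X) : PropH X := by
  classical
  obtain ⟨w, bH, -⟩ := exists_hilbertBasis ℝ H
  set c : UnconditionalSchauderBasis w ℝ H := bH.toUnconditionalSchauderBasis with hc
  have : CompleteSpace X := (completeSpace_congr (e := e.toEquiv)
    e.isUniformEmbedding).mpr inferInstance
  refine propH_of_unconditional (β := w) (X := X)
    { basis := fun i => e.symm (c i)
      coord := fun i => (c.coord i).comp (e : X →L[ℝ] H)
      ortho := ?_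
      expansion := ?_ } hX
  · intro i j
    simpa using c.ortho i j
  · intro x
    have h1 := unc_hasSum c (e x)
    have h2 := (e.symm : H →L[ℝ] X).hasSum h1
    simpa using h2

end Pool.Agent.H30
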