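import Mathlib
import Pool.Agent.H30.Cases

open Metric Set Filter Topology

namespace Pool.Agent.H30

/-- sum of the squares of the first `k` jumps of `x` along the index sequence `p` -/
def jsum (x : ℕ → ℝ) (p : ℕ → ℕ) (k : ℕ) : ℝ :=
  ∑ i ∈ Finset.range k, (x (p i) - x (p (i + 1))) ^ 2

/-- the real sequences tending to `0` with finite James norm; the index sequences
`p 0 < p 1 < ... < p k` are the initial pieces of strictly increasing `p : ℕ → ℕ` -/
def IsJames (x : ℕ → ℝ) : Prop :=
  Tendsto x atTop (𝓝 0) ∧ ∃ C : ℝ, ∀ p : ℕ → ℕ, StrictMono p → ∀ k, √(jsum x p k) ≤ C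

/-- the James norm -/
noncomputable def jnorm (x : ℕ → ℝ) : ℝ :=
  ⨆ q : {p : ℕ → ℕ // StrictMono p} × ℕ, √(jsum x q.1 q.2)

lemma jsum_nonneg (x : ℕ → ℝ) (p : ℕ → ℕ) (k : ℕ) : 0 ≤ jsum x p k :=
  Finset.sum_nonneg fun _ _ => sq_nonneg _

lemma jnorm_bdd {x : ℕ → ℝ} (h : IsJames x) :
    BddAbove (range fun q : {p : ℕ → ℕ // StrictMono p} × ℕ => √(jsum x q.1 q.2)) := by
  obtain ⟨C, hC⟩ := h.2
  exact ⟨C, by rintro _ ⟨q, rfl⟩; exact hC _ q.1.2 _⟩

lemma le_jnorm {x : ℕ → ℝ} (h : IsJames x) {p : ℕ → ℕ} (hp : StrictMono p) (k : ℕ) :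
    √(jsum x p k) ≤ jnorm x :=
  le_ciSup (jnorm_bdd h) (⟨p, hp⟩, k)

lemma jsum_le {x : ℕ → ℝ} (h : IsJames x) {p : ℕ → ℕ} (hp : StrictMono p) (k : ℕ) :
    jsum x p k ≤ jnorm x ^ 2 := by
  have h1 := le_jnorm h hp k
  calc jsum x p k = √(jsum x p k) ^ 2 := (Real.sq_sqrt (jsum_nonneg _ _ _)).symm
    _ ≤ jnorm x ^ 2 := by
      apply pow_le_pow_left₀ (Real.sqrt_nonneg _) h1

lemma jnorm_le {x : ℕ → ℝ} {C : ℝ}
    (h : ∀ p : ℕ → ℕ, StrictMono p → ∀ k, √(jsum x p k) ≤ C) : jnorm x ≤ C := by
  have : Nonempty ({p : ℕ → ℕ // StrictMono p} × ℕ) := ⟨(⟨id, strictMono_id⟩, 0)⟩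
  exact ciSup_le fun q => h _ q.1.2 _

lemma jnorm_nonneg (x : ℕ → ℝ) : 0 ≤ jnorm x := Real.iSup_nonneg fun _ => Real.sqrt_nonneg _

lemma sqrt_jsum_add (x y : ℕ → ℝ) (p : ℕ → ℕ) (k : ℕ) :
    √(jsum (x + y) p k) ≤ √(jsum x p k) + √(jsum y p k) := by
  rw [Real.sqrt_le_left (by positivity)]
  have h1 : jsum (x + y) p k = jsum x p k + jsum y p k +
      2 * ∑ i ∈ Finset.range k, (x (p i) - x (p (i + 1))) * (y (p i) - y (p (i + 1))) := by
    unfold jsum
    rw [Finset.mul_sum, ← Finset.sum_add_distrib, ← Finset.sum_add_distrib]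
    apply Finset.sum_congr rfl
    intro i _
    simp only [Pi.add_apply]
    ring
  have h2 : ∑ i ∈ Finset.range k, (x (p i) - x (p (i + 1))) * (y (p i) - y (p (i + 1))) ≤
      √(jsum x p k) * √(jsum y p k) := Real.sum_mul_le_sqrt_mul_sqrt _ _ _
  have h3 := Real.sq_sqrt (jsum_nonneg x p k)
  have h4 := Real.sq_sqrt (jsum_nonneg y p k)
  rw [h1]
  nlinarith

lemma jsum_smul (c : ℝ) (x : ℕ → ℝ) (p : ℕ → ℕ) (k : ℕ) :
    jsum (c • x) p k = c ^ 2 * jsum x p k := by
  unfold jsum
  rw [Finset.mul_sum]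
  apply Finset.sum_congr rfl
  intro i _
  simp only [Pi.smul_apply, smul_eq_mul]
  ring

lemma sqrt_jsum_smul (c : ℝ) (x : ℕ → ℝ) (p : ℕ → ℕ) (k : ℕ) :
    √(jsum (c • x) p k) = |c| * √(jsum x p k) := by
  rw [jsum_smul, Real.sqrt_mul (sq_nonneg c), Real.sqrt_sq_eq_abs]

/-- the linear space underlying the James space -/
def jamesSub : Submodule ℝ (ℕ → ℝ) where
  carrier := {x | IsJames x}
  add_mem' := by
    rintro x y ⟨hx, C, hC⟩ ⟨hy, D, hD⟩
    refine ⟨?_, C + D, ?_⟩
    · have := hx.add hy
      rw [add_zero] at this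
      exact this
    · intro p hp k
      exact (sqrt_jsum_add x y p k).trans (add_le_add (hC p hp k) (hD p hp k))
  zero_mem' := by
    refine ⟨tendsto_const_nhds, 0, ?_⟩
    intro p _ k
    have : jsum 0 p k = 0 := by simp [jsum]
    rw [this]; simp
  smul_mem' := by
    rintro c x ⟨hx, C, hC⟩
    refine ⟨?_, |c| * C, ?_⟩
    · have := hx.const_mul c
      rw [mul_zero] at this
      exact this
    · intro p hp k
      rw [sqrt_jsum_smul]
      exact mul_le_mul_of_nonneg_left (hC p hp k) (abs_nonneg c)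

/-- James's space -/
def James : Type := jamesSub

instance : AddCommGroup James := inferInstanceAs (AddCommGroup jamesSub)
instance : Module ℝ James := inferInstanceAs (Module ℝ jamesSub)

/-- the sequence underlying an element of James's space -/
def James.seq (x : James) : ℕ → ℝ := Subtype.val (show jamesSub from x)

lemma James.isJames (x : James) : IsJames x.seq := Subtype.property (show jamesSub from x)

lemma James.seq_add (x y : James) : (x + y).seq = x.seq + y.seq := rfl
lemma James.seq_smul (c : ℝ) (x : James) : (c • x).seq = c • x.seq := rfl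
lemma James.seq_zero : (0 : James).seq = 0 := rfl

lemma James.ext' {x y : James} (h : x.seq = y.seq) : x = y := Subtype.ext h

noncomputable instance : Norm James := ⟨fun x => jnorm x.seq⟩

lemma James.norm_def (x : James) : ‖x‖ = jnorm x.seq := rfl

lemma james_core : NormedSpace.Core ℝ James where
  norm_nonneg x := jnorm_nonneg _
  norm_smul c x := by
    rw [James.norm_def, James.norm_def, James.seq_smul, Real.norm_eq_abs]
    unfold jnorm
    simp only [sqrt_jsum_smul]
    rw [Real.mul_iSup_of_nonneg (abs_nonneg c)]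
  norm_triangle x y := by
    rw [James.norm_def, James.norm_def, James.norm_def, James.seq_add]
    apply jnorm_le
    intro p hp k
    exact (sqrt_jsum_add _ _ p k).trans
      (add_le_add (le_jnorm x.isJames hp k) (le_jnorm y.isJames hp k))
  norm_eq_zero_iff x := by
    constructor
    · intro h
      rw [James.norm_def] at h
      have hstep : ∀ i, x.seq i = x.seq (i + 1) := by
        intro i
        have h1 := jsum_le x.isJames strictMono_id (i + 1)
        rw [h] at h1
        have h2 : (x.seq i - x.seq (i + 1)) ^ 2 ≤ jsum x.seq id (i + 1) := by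
          unfold jsum
          exact Finset.single_le_sum (f := fun i => (x.seq (id i) - x.seq (id (i + 1))) ^ 2)
            (fun j _ => sq_nonneg _) (Finset.mem_range.mpr (Nat.lt_succ_self i))
        have h3 : (x.seq i - x.seq (i + 1)) ^ 2 = 0 := le_antisymm (by simpa using h2.trans h1)
          (sq_nonneg _)
        have h4 : x.seq i - x.seq (i + 1) = 0 := by simpa using h3
        linarith
      have hconst : ∀ i, x.seq i = x.seq 0 := by
        intro i
        induction i with
        | zero => rfl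
        | succ i ih => rw [← hstep i, ih]
      have hlim := x.isJames.1
      have h0 : x.seq 0 = 0 := by
        have h5 : Tendsto x.seq atTop (𝓝 (x.seq 0)) := by
          have : x.seq = fun _ => x.seq 0 := funext hconst
          rw [this]; exact tendsto_const_nhds
        exact tendsto_nhds_unique h5 hlim
      apply James.ext'
      rw [James.seq_zero]
      funext i
      rw [hconst i, h0]; rfl
    · rintro rfl
      rw [James.norm_def, James.seq_zero]
      apply le_antisymm _ (jnorm_nonneg _)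
      apply jnorm_le
      intro p _ k
      have : jsum 0 p k = 0 := by simp [jsum]
      rw [this]; simp

noncomputable instance : NormedAddCommGroup James := NormedAddCommGroup.ofCore james_core
noncomputable instance : NormedSpace ℝ James := NormedSpace.ofCore james_core

lemma James.norm_eq (x : James) : ‖x‖ = jnorm x.seq := rfl

/-- square summable sequences have finite James norm -/
lemma jsum_le_of_l2 {u : ℕ → ℝ} {B : ℝ} (hB : ∀ N, ∑ n ∈ Finset.range N, u n ^ 2 ≤ B)
    {p : ℕ → ℕ} (hp : StrictMono p) (k : ℕ) : jsum u p k ≤ 4 * B := by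
  have key : ∀ q : ℕ → ℕ, StrictMono q → ∑ i ∈ Finset.range k, u (q i) ^ 2 ≤ B := by
    intro q hq
    calc ∑ i ∈ Finset.range k, u (q i) ^ 2
        = ∑ n ∈ (Finset.range k).image q, u n ^ 2 := by
          rw [Finset.sum_image]
          intro a _ b _ h
          exact hq.injective h
      _ ≤ ∑ n ∈ Finset.range (q k), u n ^ 2 := by
          apply Finset.sum_le_sum_of_subset_of_nonneg
          · intro n hn
            rw [Finset.mem_image] at hn
            obtain ⟨i, hi, rfl⟩ := hn
            rw [Finset.mem_range] at hi ⊢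
            exact hq hi
          · intro _ _ _
            exact sq_nonneg _
      _ ≤ B := hB _
  have h1 := key p hp
  have h2 := key (fun i => p (i + 1)) (fun a b hab => hp (by omega))
  have h3 : jsum u p k ≤ ∑ i ∈ Finset.range k, (2 * u (p i) ^ 2 + 2 * u (p (i + 1)) ^ 2) := by
    unfold jsum
    apply Finset.sum_le_sum
    intro i _
    nlinarith [sq_nonneg (u (p i) + u (p (i + 1)))]
  rw [Finset.sum_add_distrib, ← Finset.mul_sum, ← Finset.mul_sum] at h3
  linarith

/-- the pairing projection on sequences -/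
noncomputable def pairP (x : ℕ → ℝ) (n : ℕ) : ℝ :=
  (if n % 2 = 0 then 1 else -1) * ((x (2 * (n / 2)) - x (2 * (n / 2) + 1)) / 2)

lemma pairP_even (x : ℕ → ℝ) (m : ℕ) : pairP x (2 * m) = (x (2 * m) - x (2 * m + 1)) / 2 := by
  unfold pairP
  have h1 : (2 * m) % 2 = 0 := by omega
  have h2 : (2 * m) / 2 = m := by omega
  rw [if_pos h1, h2, one_mul]

lemma pairP_odd (x : ℕ → ℝ) (m : ℕ) :
    pairP x (2 * m + 1) = -((x (2 * m) - x (2 * m + 1)) / 2) := by
  unfold pairP
  have h1 : ¬ (2 * m + 1) % 2 = 0 := by omega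
  have h2 : (2 * m + 1) / 2 = m := by omega
  rw [if_neg h1, h2, neg_one_mul]

lemma sum_pairP (x : ℕ → ℝ) (M : ℕ) :
    ∑ n ∈ Finset.range (2 * M), pairP x n ^ 2 =
      (∑ m ∈ Finset.range M, (x (2 * m) - x (2 * m + 1)) ^ 2) / 2 := by
  induction M with
  | zero => simp
  | succ M ih =>
    rw [show 2 * (M + 1) = 2 * M + 1 + 1 by ring, Finset.sum_range_succ, Finset.sum_range_succ, ih,
      Finset.sum_range_succ, pairP_even, pairP_odd]
    ring

lemma sum_even_jumps (x : ℕ → ℝ) (M : ℕ) :
    ∑ m ∈ Finset.range M, (x (2 * m) - x (2 * m + 1)) ^ 2 ≤ jsum x id (2 * M) := by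
  induction M with
  | zero => simp [jsum]
  | succ M ih =>
    have h1 : jsum x id (2 * (M + 1)) = jsum x id (2 * M) + (x (2 * M) - x (2 * M + 1)) ^ 2 +
        (x (2 * M + 1) - x (2 * M + 1 + 1)) ^ 2 := by
      unfold jsum
      rw [show 2 * (M + 1) = 2 * M + 1 + 1 by ring, Finset.sum_range_succ, Finset.sum_range_succ]
      simp
    rw [Finset.sum_range_succ, h1]
    nlinarith [sq_nonneg (x (2 * M + 1) - x (2 * M + 1 + 1))]

lemma pairP_l2 {x : ℕ → ℝ} (hx : IsJames x) (N : ℕ) :
    ∑ n ∈ Finset.range N, pairP x n ^ 2 ≤ jnorm x ^ 2 / 2 := by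
  calc ∑ n ∈ Finset.range N, pairP x n ^ 2 ≤ ∑ n ∈ Finset.range (2 * N), pairP x n ^ 2 := by
        apply Finset.sum_le_sum_of_subset_of_nonneg
        · intro n hn
          rw [Finset.mem_range] at hn ⊢
          omega
        · intro _ _ _
          exact sq_nonneg _
    _ = (∑ m ∈ Finset.range N, (x (2 * m) - x (2 * m + 1)) ^ 2) / 2 := sum_pairP x N
    _ ≤ jsum x id (2 * N) / 2 := by
        have := sum_even_jumps x N
        linarith
    _ ≤ jnorm x ^ 2 / 2 := by
        have := jsum_le hx strictMono_id (2 * N)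
        linarith

lemma sqrt_jsum_pairP {x : ℕ → ℝ} (hx : IsJames x) {p : ℕ → ℕ} (hp : StrictMono p) (k : ℕ) :
    √(jsum (pairP x) p k) ≤ 2 * jnorm x := by
  have h1 := jsum_le_of_l2 (pairP_l2 hx) hp k
  have h0 := jnorm_nonneg x
  rw [Real.sqrt_le_left (by positivity)]
  nlinarith [sq_nonneg (jnorm x)]

lemma isJames_pairP {x : ℕ → ℝ} (hx : IsJames x) : IsJames (pairP x) := by
  refine ⟨?_, 2 * jnorm x, fun p hp k => sqrt_jsum_pairP hx hp k⟩
  have hdiv : Tendsto (fun n : ℕ => n / 2) atTop atTop := by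
    apply tendsto_atTop_atTop.mpr
    intro b
    exact ⟨2 * b, fun n hn => by omega⟩
  have h1 : Tendsto (fun n : ℕ => x (2 * (n / 2))) atTop (𝓝 0) := by
    apply hx.1.comp
    apply tendsto_atTop_atTop.mpr
    intro b
    exact ⟨2 * b, fun n hn => by omega⟩
  have h2 : Tendsto (fun n : ℕ => x (2 * (n / 2) + 1)) atTop (𝓝 0) := by
    apply hx.1.comp
    apply tendsto_atTop_atTop.mpr
    intro b
    exact ⟨2 * b, fun n hn => by omega⟩
  have h3 : Tendsto (fun n : ℕ => |(x (2 * (n / 2)) - x (2 * (n / 2) + 1)) / 2|) atTop (𝓝 0) := by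
    have := ((h1.sub h2).div_const 2).abs
    simpa using this
  rw [tendsto_zero_iff_abs_tendsto_zero]
  refine squeeze_zero (fun n => abs_nonneg _) (fun n => ?_) h3
  simp only [Function.comp]
  unfold pairP
  rw [abs_mul]
  split_ifs <;> simp

/-- the pairing projection on James's space -/
noncomputable def jamesP : James →ₗ[ℝ] James where
  toFun x := (⟨pairP x.seq, isJames_pairP x.isJames⟩ : jamesSub)
  map_add' x y := by
    apply James.ext'
    change pairP (x + y).seq = pairP x.seq + pairP y.seq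
    funext n
    rw [James.seq_add]
    simp only [pairP, Pi.add_apply]
    ring
  map_smul' c x := by
    apply James.ext'
    change pairP (c • x).seq = c • pairP x.seq
    funext n
    rw [James.seq_smul]
    simp only [pairP, Pi.smul_apply, smul_eq_mul]
    ring

lemma jamesP_seq (x : James) : (jamesP x).seq = pairP x.seq := rfl

lemma jamesP_norm_le (x : James) : ‖jamesP x‖ ≤ 2 * ‖x‖ := by
  rw [James.norm_eq, James.norm_eq, jamesP_seq]
  exact jnorm_le fun p hp k => sqrt_jsum_pairP x.isJames hp k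

/-- the bounded version -/
noncomputable def jamesPc : James →L[ℝ] James := jamesP.mkContinuous 2 jamesP_norm_le

lemma pairP_idem (x : ℕ → ℝ) : pairP (pairP x) = pairP x := by
  funext n
  have h1 : pairP (pairP x) n = (if n % 2 = 0 then 1 else -1) *
      ((pairP x (2 * (n / 2)) - pairP x (2 * (n / 2) + 1)) / 2) := rfl
  rw [h1, pairP_even, pairP_odd]
  unfold pairP
  ring

/-- finitely supported sequences of two terms -/
noncomputable def twoSeq (c : ℝ) (m : ℕ) (n : ℕ) : ℝ :=
  if n = 2 * m then 1 else if n = 2 * m + 1 then c else 0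

lemma isJames_twoSeq (c : ℝ) (m : ℕ) : IsJames (twoSeq c m) := by
  refine ⟨?_, √(4 * (1 + c ^ 2)), ?_⟩
  · apply tendsto_const_nhds.congr'
    filter_upwards [eventually_gt_atTop (2 * m + 1)] with n hn
    unfold twoSeq
    rw [if_neg (by omega), if_neg (by omega)]
  · intro p hp k
    apply Real.sqrt_le_sqrt
    apply jsum_le_of_l2 _ hp
    intro N
    calc ∑ n ∈ Finset.range N, twoSeq c m n ^ 2
        ≤ ∑ n ∈ Finset.range N, ((if n = 2 * m then 1 else 0) +
            (if n = 2 * m + 1 then c ^ 2 else 0)) := by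
          apply Finset.sum_le_sum
          intro n _
          unfold twoSeq
          split_ifs with h1 h2
          · omega
          · simp
          · simp
          · simp
      _ ≤ 1 + c ^ 2 := by
          rw [Finset.sum_add_distrib, Finset.sum_ite_eq', Finset.sum_ite_eq']
          have := sq_nonneg c
          split_ifs <;> linarith

/-- elements of James's space with two nonzero terms -/
noncomputable def twoJ (c : ℝ) (m : ℕ) : James := (⟨twoSeq c m, isJames_twoSeq c m⟩ : jamesSub)

lemma twoJ_seq (c : ℝ) (m : ℕ) : (twoJ c m).seq = twoSeq c m := rfl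

lemma twoSeq_even (c : ℝ) (m n : ℕ) : twoSeq c m (2 * n) = if n = m then 1 else 0 := by
  unfold twoSeq
  by_cases h : n = m
  · rw [if_pos (by omega), if_pos h]
  · rw [if_neg (by omega), if_neg (by omega), if_neg h]

lemma twoSeq_odd (c : ℝ) (m n : ℕ) : twoSeq c m (2 * n + 1) = if n = m then c else 0 := by
  unfold twoSeq
  by_cases h : n = m
  · rw [if_neg (by omega), if_pos (by omega), if_pos h]
  · rw [if_neg (by omega), if_neg (by omega), if_neg h]

/-- evaluation at an index, as a linear functional -/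
def evalJ (n : ℕ) : James →ₗ[ℝ] ℝ where
  toFun x := x.seq n
  map_add' x y := rfl
  map_smul' c x := rfl

lemma pairP_twoSeq_neg (m : ℕ) : pairP (twoSeq (-1) m) = twoSeq (-1) m := by
  funext n
  rcases Nat.even_or_odd' n with ⟨k, rfl | rfl⟩
  · rw [pairP_even, twoSeq_even, twoSeq_odd]
    split_ifs <;> norm_num
  · rw [pairP_odd, twoSeq_even, twoSeq_odd]
    split_ifs <;> norm_num

lemma pairP_twoSeq_pos (m : ℕ) : pairP (twoSeq 1 m) = 0 := by
  funext n
  rcases Nat.even_or_odd' n with ⟨k, rfl | rfl⟩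
  · rw [pairP_even, twoSeq_even, twoSeq_odd]
    split_ifs <;> norm_num
  · rw [pairP_odd, twoSeq_even, twoSeq_odd]
    split_ifs <;> norm_num

theorem propH_james : PropH James := by
  refine propH_of_decomposable jamesPc ?_ ?_ ?_
  · intro x
    apply James.ext'
    change pairP (pairP x.seq) = pairP x.seq
    exact pairP_idem _
  · have hmem : ∀ m, twoJ (-1) m ∈ LinearMap.range (jamesPc : James →ₗ[ℝ] James) := by
      intro m
      refine ⟨twoJ (-1) m, ?_⟩
      apply James.ext'
      change pairP (twoSeq (-1) m) = twoSeq (-1) m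
      exact pairP_twoSeq_neg m
    refine not_finiteDimensional_of_biorth (fun m => ⟨twoJ (-1) m, hmem m⟩)
      (fun n => (evalJ (2 * n)).comp (Submodule.subtype _)) ?_
    intro m n
    change twoSeq (-1) n (2 * m) = _
    rw [twoSeq_even]
  · have hmem : ∀ m, twoJ 1 m ∈ LinearMap.ker (jamesPc : James →ₗ[ℝ] James) := by
      intro m
      rw [LinearMap.mem_ker]
      apply James.ext'
      change pairP (twoSeq 1 m) = 0
      exact pairP_twoSeq_pos m
    refine not_finiteDimensional_of_biorth (fun m => ⟨twoJ 1 m, hmem m⟩)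
      (fun n => (evalJ (2 * n)).comp (Submodule.subtype _)) ?_
    intro m n
    change twoSeq 1 n (2 * m) = _
    rw [twoSeq_even]

end Pool.Agent.H30
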